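import Mathlib
import Pool.Agent.Y940.HB.Hash

/-!
# Project NC: hashed digit sets with arbitrary block lengths, basic facts

`d`, `co`, `Z`, `ext` and the hashing lemma are those of the starting library `Pool.Agent.Y940.HB`.
-/

set_option autoImplicit false

open Finset

namespace Pool.Agent.V5helper43.NC

open Pool.Agent.Y940.HB (d co Z ext co_true co_false mem_ext ext_lt card_ext co_lt split_unique
  co_split_unique)

/-- the parameters: half block lengths -/
structure Par where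
  l : ℕ → ℕ
  mono : Monotone l
  five : ∀ i, 5 ≤ l i

namespace Par

variable (π : Par)

/-- block lengths -/
def s (i : ℕ) : ℕ := 2 * π.l i

/-- block positions -/
def m : ℕ → ℕ
  | 0 => 0
  | i + 1 => m i + π.s i

/-- thresholds -/
def X (i : ℕ) : ℕ := 4 ^ (π.m i + π.l i)

/-- upper bound for the number of representations modulo `4 ^ m i` -/
def zb (i : ℕ) : ℕ := 4 * 2 ^ π.s i * (i + 1) * (i + 1 + 2 * π.m i)

theorem m_zero : π.m 0 = 0 := rfl

theorem m_succ (i : ℕ) : π.m (i + 1) = π.m i + π.s i := rfl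

theorem s_mono {i j : ℕ} (h : i ≤ j) : π.s i ≤ π.s j := Nat.mul_le_mul_left _ (π.mono h)

theorem s_ge (i : ℕ) : 10 ≤ π.s i := by
  have := π.five i
  unfold s
  omega

theorem m_mono {i j : ℕ} (h : i ≤ j) : π.m i ≤ π.m j := by
  induction j, h using Nat.le_induction with
  | base => exact le_rfl
  | succ j _ ih => rw [m_succ]; omega

theorem m_ge (i : ℕ) : 10 * i ≤ π.m i := by
  induction i with
  | zero => exact Nat.zero_le _
  | succ i ih =>
    have := π.s_ge i
    rw [m_succ]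
    omega

end Par

/-- the data of the construction -/
structure Sys (π : Par) where
  P : Bool → ℕ → Finset ℕ
  v : Bool → ℕ → ℕ → ℕ
  P0 : ∀ c, P c 0 = {0}
  hv : ∀ c i p, v c i p < 2 ^ π.s i
  hP : ∀ c i, P c (i + 1) = ext c (4 ^ π.m i) (π.s i) (P c i) (v c i)
  hZ : ∀ c i n, Z (P c i) (4 ^ π.m i) n ≤ π.zb i

/-- `r_A(n)`: the number of ordered pairs of elements of `A` with sum `n` -/
noncomputable def rep (A : Set ℕ) (n : ℕ) : ℕ :=
  {p : ℕ × ℕ | p.1 ∈ A ∧ p.2 ∈ A ∧ p.1 + p.2 = n}.ncard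

/-- the number of pairs in `A × B` with sum `n` -/
noncomputable def rep2 (A B : Set ℕ) (n : ℕ) : ℕ :=
  {p : ℕ × ℕ | p.1 ∈ A ∧ p.2 ∈ B ∧ p.1 + p.2 = n}.ncard

/-- number of elements below `N` -/
noncomputable def cnt (B : Set ℕ) (N : ℕ) : ℕ := {a | a ∈ B ∧ a < N}.ncard

namespace Sys

variable {π : Par} (S : Sys π)

theorem P_lt (c : Bool) (i : ℕ) {x : ℕ} (hx : x ∈ S.P c i) : x < 4 ^ π.m i := by
  induction i generalizing x with
  | zero =>
    rw [S.P0, mem_singleton] at hx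
    subst hx
    positivity
  | succ i ih =>
    rw [S.hP c i] at hx
    rw [π.m_succ, pow_add]
    exact ext_lt (fun x hx => ih hx) (S.hv c i) x hx

theorem P_card (c : Bool) (i : ℕ) : (S.P c i).card = 2 ^ π.m i := by
  induction i with
  | zero =>
    rw [S.P0]
    simp [Par.m]
  | succ i ih =>
    rw [S.hP c i, card_ext (fun x hx => S.P_lt c i hx), ih, π.m_succ, pow_add]

/-- elements of `P c (i + 1)` -/
theorem mem_P_succ {c : Bool} {i x : ℕ} : x ∈ S.P c (i + 1) ↔
    ∃ p ∈ S.P c i, ∃ t < 2 ^ π.s i,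
      x = p + 4 ^ π.m i * (co c * d t + co (!c) * d (S.v c i p)) := by
  rw [S.hP c i]
  exact mem_ext

/-- unique decoding -/
theorem decode_unique (i : ℕ) : ∀ {p q p' q' : ℕ}, p ∈ S.P true i → q ∈ S.P false i →
    p' ∈ S.P true i → q' ∈ S.P false i → p + q ≡ p' + q' [MOD 4 ^ π.m i] →
      p = p' ∧ q = q' := by
  induction i with
  | zero =>
    intro p q p' q' hp hq hp' hq' _
    rw [S.P0, mem_singleton] at hp hp' hq hq'
    exact ⟨by rw [hp, hp'], by rw [hq, hq']⟩
  | succ i ih =>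
    intro p q p' q' hp hq hp' hq' hmod
    obtain ⟨a, ha, t, ht, rfl⟩ := S.mem_P_succ.1 hp
    obtain ⟨b, hb, u, hu, rfl⟩ := S.mem_P_succ.1 hq
    obtain ⟨a', ha', t', ht', rfl⟩ := S.mem_P_succ.1 hp'
    obtain ⟨b', hb', u', hu', rfl⟩ := S.mem_P_succ.1 hq'
    simp only [co_true, co_false, Bool.not_true, Bool.not_false, one_mul] at hmod ⊢
    rw [π.m_succ, pow_add] at hmod
    set M := 4 ^ π.m i with hM
    have hM0 : 0 < M := by positivity
    have h1 : a + b ≡ a' + b' [MOD M] := by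
      have h2 := Nat.ModEq.of_mul_right _ hmod
      have e1 : a + M * (d t + 2 * d (S.v true i a)) + (b + M * (2 * d u + d (S.v false i b)))
        = (a + b) + M * (d t + 2 * d (S.v true i a) + (2 * d u + d (S.v false i b))) := by ring
      have e2 : a' + M * (d t' + 2 * d (S.v true i a')) + (b' + M * (2 * d u' + d (S.v false i b')))
        = (a' + b') + M * (d t' + 2 * d (S.v true i a') + (2 * d u' + d (S.v false i b'))) := by ring
      rw [e1, e2] at h2
      unfold Nat.ModEq at h2 ⊢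
      rwa [Nat.add_mul_mod_self_left, Nat.add_mul_mod_self_left] at h2
    obtain ⟨rfl, rfl⟩ := ih ha hb ha' hb' h1
    have h3 : M * (d t + 2 * d u) ≡ M * (d t' + 2 * d u') [MOD M * 4 ^ π.s i] := by
      apply Nat.ModEq.add_left_cancel' (a + b + M * (2 * d (S.v true i a) + d (S.v false i b)))
      have e1 : a + M * (d t + 2 * d (S.v true i a)) + (b + M * (2 * d u + d (S.v false i b)))
        = a + b + M * (2 * d (S.v true i a) + d (S.v false i b)) + M * (d t + 2 * d u) := by ring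
      have e2 : a + M * (d t' + 2 * d (S.v true i a)) + (b + M * (2 * d u' + d (S.v false i b)))
        = a + b + M * (2 * d (S.v true i a) + d (S.v false i b)) + M * (d t' + 2 * d u') := by ring
      rwa [e1, e2] at hmod
    have h4 := Nat.ModEq.mul_left_cancel' hM0.ne' h3
    have h5 : d t + 2 * d u < 4 ^ π.s i := by
      have := co_lt (c := true) ht hu
      simpa using this
    have h6 : d t' + 2 * d u' < 4 ^ π.s i := by
      have := co_lt (c := true) ht' hu'
      simpa using this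
    have h7 := split_unique (Nat.ModEq.eq_of_lt_of_lt h4 h5 h6)
    obtain ⟨rfl, rfl⟩ := h7
    exact ⟨rfl, rfl⟩

theorem decode_exists (i n : ℕ) : ∃ p ∈ S.P true i, ∃ q ∈ S.P false i,
    (p + q) % 4 ^ π.m i = n % 4 ^ π.m i := by
  have hinj : Set.InjOn (fun x : ℕ × ℕ => (x.1 + x.2) % 4 ^ π.m i)
      (S.P true i ×ˢ S.P false i : Finset (ℕ × ℕ)) := by
    rintro ⟨p, q⟩ h ⟨p', q'⟩ h' heq
    simp only [coe_product, Set.mem_prod, mem_coe] at h h'
    have := S.decode_unique i h.1 h.2 h'.1 h'.2 heq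
    rw [this.1, this.2]
  have himg : (S.P true i ×ˢ S.P false i).image (fun x : ℕ × ℕ => (x.1 + x.2) % 4 ^ π.m i)
      = range (4 ^ π.m i) := by
    apply eq_of_subset_of_card_le
    · intro x hx
      obtain ⟨y, _, rfl⟩ := mem_image.1 hx
      exact mem_range.2 (Nat.mod_lt _ (by positivity))
    · rw [card_image_of_injOn hinj, card_product, S.P_card, S.P_card, card_range, ← pow_add,
        ← two_mul, pow_mul]
      norm_num
  have : n % 4 ^ π.m i ∈ (S.P true i ×ˢ S.P false i).image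
      (fun x : ℕ × ℕ => (x.1 + x.2) % 4 ^ π.m i) := by
    rw [himg]
    exact mem_range.2 (Nat.mod_lt _ (by positivity))
  obtain ⟨⟨p, q⟩, h, h2⟩ := mem_image.1 this
  rw [mem_product] at h
  exact ⟨p, h.1, q, h.2, h2⟩

theorem P_mod (c : Bool) {i j : ℕ} (hij : i ≤ j) : ∀ x ∈ S.P c j, x % 4 ^ π.m i ∈ S.P c i := by
  induction j, hij using Nat.le_induction with
  | base =>
    intro x hx
    rw [Nat.mod_eq_of_lt (S.P_lt c i hx)]
    exact hx
  | succ j hij ih =>
    intro x hx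
    obtain ⟨p, hp, t, ht, rfl⟩ := S.mem_P_succ.1 hx
    have h1 : 4 ^ π.m i ∣ 4 ^ π.m j := pow_dvd_pow 4 (π.m_mono hij)
    obtain ⟨k, hk⟩ := h1
    have h2 : (p + 4 ^ π.m j * (co c * d t + co (!c) * d (S.v c j p))) % 4 ^ π.m i
        = p % 4 ^ π.m i := by
      rw [hk, mul_assoc, Nat.add_mul_mod_self_left]
    rw [h2]
    exact ih p hp

/-- numbers with lower part in `P c i` and upper part with digits `0, co c` -/
def U (c : Bool) (i : ℕ) : Set ℕ :=
  {a | ∃ p ∈ S.P c i, ∃ u, a = p + 4 ^ π.m i * (co c * d u)}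

/-- the elements of type `c` of the main set -/
def A0 (c : Bool) : Set ℕ := {a | ∃ i, π.X i ≤ a ∧ a < π.X (i + 1) ∧ a ∈ S.U c i}

/-- the supplementary elements at the threshold `X (i + 1)` -/
def B (i : ℕ) : Set ℕ :=
  {e | ∃ (c c' : Bool) (z ε a : ℕ), 1 ≤ z ∧ z < 2 ^ (π.s (i + 1) + π.l (i + 2) - π.l (i + 1)) ∧
    ε ≤ 1 ∧ a ∈ S.U c' i ∧ a < 256 * 4 ^ π.m (i + 1) ∧
    e + ε * (193 * 4 ^ π.m (i + 1)) = co c * (π.X (i + 1) * d z) + a}

/-- the set -/
def A : Set ℕ := {a | (∃ c, a ∈ S.A0 c) ∨ ∃ i, a ∈ S.B i}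

/-- small elements of `U c i` -/
def V (c : Bool) (i : ℕ) : Set ℕ :=
  {a | ∃ p ∈ S.P c i, ∃ u < 2 ^ π.l i, a = p + 4 ^ π.m i * (co c * d u)}

/-- elements of `U c i`, possibly translated by the hash value -/
def W (c : Bool) (i : ℕ) : Set ℕ :=
  {a | ∃ p ∈ S.P c i, ∃ (u ε : ℕ), ε ≤ 1 ∧
    a = p + 4 ^ π.m i * (co c * d u + ε * (co (!c) * d (S.v c i p)))}

end Sys

end Pool.Agent.V5helper43.NC
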