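import Pool.Agent.V5helper43.NC.Lem

/-! # Project NC, job COV: every large number is a sum of two elements of `A` -/

set_option autoImplicit false

open Finset

namespace Pool.Agent.V5helper43.NC

open Pool.Agent.Y940.HB (d co Z ext co_true co_false mem_ext ext_lt card_ext co_lt split_unique
  co_split_unique exists_split d_add three_d_lt lt_of_d_lt le_d d_zero d_inj co_pos)

variable {π : Par} (S : Sys π)

theorem one_le_M (i : ℕ) : 1 ≤ 4 ^ π.m i := Nat.one_le_pow _ _ (by norm_num)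

theorem X_ge (i : ℕ) : 1024 * 4 ^ π.m i ≤ π.X i := by
  rw [X_eq, mul_comm]
  apply Nat.mul_le_mul_left
  calc 1024 = 4 ^ 5 := by norm_num
    _ ≤ 4 ^ π.l i := Nat.pow_le_pow_right (by norm_num) (π.five i)

theorem l_le_s (i : ℕ) : π.l i ≤ π.s i := by unfold Par.s; omega

/-- the case of a small component -/
theorem small (c : Bool) {i p q z a₀ w b₀ R₀ : ℕ} (hp : p ∈ S.P c i) (hq : q ∈ S.P (!c) i)
    (hz : 1 ≤ z) (hz2 : z < 2 ^ (π.s (i + 1) + π.l (i + 2) - π.l (i + 1)))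
    (ha : a₀ < 2 ^ π.l i) (hw : w < 2 ^ π.s i)
    (hR : R₀ = co c * (d a₀ + d w) + co (!c) * d b₀) (h60 : 60 * 4 ^ π.s i ≤ R₀)
    (hlt : R₀ < 4 ^ (π.s i + π.l (i + 1))) :
    ∃ e ∈ S.B i, ∃ f ∈ S.A0 (!c),
      e + f = p + q + 4 ^ π.m i * R₀ + co (!c) * (π.X (i + 1) * d z) := by
  obtain ⟨x, y, hxy⟩ := exists_co_split c R₀
  have hM := one_le_M (π := π) i
  have hpl := S.P_lt c i hp
  have hql := S.P_lt (!c) i hq
  have h1 := three_d_lt _ _ ha
  have h2 := three_d_lt _ _ hw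
  have h3 : 4 ^ π.l i ≤ 4 ^ π.s i := Nat.pow_le_pow_right (by norm_num) (l_le_s i)
  have hc := co_le c
  have hc' := co_le (!c)
  have h4 : co c * (d a₀ + d w) ≤ 2 * (d a₀ + d w) := Nat.mul_le_mul_right _ hc
  have h5 : (4 : ℕ) ^ (π.s i + 1) = 4 * 4 ^ π.s i := by rw [pow_succ]; ring
  have hx : x < 2 ^ (π.s i + 1 + 1) := by
    apply carry c (A₀ := co c * (d a₀ + d w)) (b := b₀) (y := y)
    · omega
    · rw [hxy, hR]
  have h6 := three_d_lt _ _ hx
  have h7 : (4 : ℕ) ^ (π.s i + 1 + 1) = 16 * 4 ^ π.s i := by rw [pow_succ, pow_succ]; ring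
  have h8 : co c * d x ≤ 2 * d x := Nat.mul_le_mul_right _ hc
  have hy : 2 ^ (π.s i + 1) ≤ y := by
    by_contra hcon
    push Not at hcon
    have h9 := three_d_lt _ _ hcon
    have h10 : co (!c) * d y ≤ 2 * d y := Nat.mul_le_mul_right _ hc'
    omega
  have hy2 : 2 ^ π.l i ≤ y :=
    (Nat.pow_le_pow_right (by norm_num) (by have := l_le_s (π := π) i; omega)).trans hy
  have hMs := M_succ_eq (π := π) i
  refine ⟨co (!c) * (π.X (i + 1) * d z) + (p + 4 ^ π.m i * (co c * d x)), ?_,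
    q + 4 ^ π.m i * (co (!c) * d y), ?_, ?_⟩
  · refine ⟨!c, c, z, 0, p + 4 ^ π.m i * (co c * d x), hz, hz2, by norm_num, ⟨p, hp, x, rfl⟩, ?_,
      by ring⟩
    rw [hMs]
    have h11 : 4 ^ π.m i * (co c * d x) ≤ 4 ^ π.m i * (11 * 4 ^ π.s i) :=
      Nat.mul_le_mul_left _ (by omega)
    have h12 : 1 ≤ 4 ^ π.s i := Nat.one_le_pow _ _ (by norm_num)
    have h13 : 4 ^ π.m i * 1 ≤ 4 ^ π.m i * 4 ^ π.s i := Nat.mul_le_mul_left _ h12
    have h14 : 4 ^ π.m i * (11 * 4 ^ π.s i) = 11 * (4 ^ π.m i * 4 ^ π.s i) := by ring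
    omega
  · apply mem_A0 S hq hy2
    rw [X_succ_eq]
    have h15 : co (!c) * d y + 1 ≤ 4 ^ (π.s i + π.l (i + 1)) := by omega
    have h16 := Nat.mul_le_mul_left (4 ^ π.m i) h15
    rw [mul_add] at h16
    omega
  · rw [← hxy]
    ring

/-- the case of a small remainder -/
theorem caseA (c : Bool) {i n₀ z z' : ℕ} (hn : n₀ < 62 * 4 ^ π.m (i + 1))
    (hz : 1 ≤ z) (hz2 : z < 2 ^ (π.s (i + 1) + π.l (i + 2) - π.l (i + 1)))
    (hz3 : z' < 2 ^ (π.s (i + 1) + π.l (i + 2) - π.l (i + 1))) :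
    ∃ e ∈ S.B i, ∃ f, (f ∈ S.A0 (!c) ∨ f ∈ S.B i) ∧
      e + f = co c * (π.X (i + 1) * d z) + co (!c) * (π.X (i + 1) * d z') + n₀ := by
  have hM := one_le_M (π := π) i
  have hMs := M_succ_eq (π := π) i
  have h12 : 16 ≤ 4 ^ π.s i := by
    calc 16 = 4 ^ 2 := by norm_num
      _ ≤ 4 ^ π.s i := Nat.pow_le_pow_right (by norm_num) (by have := π.s_ge i; omega)
  have h13 : 4 ^ π.m i * 16 ≤ 4 ^ π.m i * 4 ^ π.s i := Nat.mul_le_mul_left _ h12
  obtain ⟨n', hn'⟩ : ∃ n', n' = n₀ + 193 * 4 ^ π.m (i + 1) := ⟨_, rfl⟩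
  obtain ⟨p, hp, q, hq, hpq⟩ : ∃ p ∈ S.P c i, ∃ q ∈ S.P (!c) i,
      (p + q) % 4 ^ π.m i = n' % 4 ^ π.m i := by
    obtain ⟨p, hp, q, hq, h⟩ := S.decode_exists i n'
    cases c
    · exact ⟨q, hq, p, hp, by rw [add_comm]; exact h⟩
    · exact ⟨p, hp, q, hq, h⟩
  have hpl := S.P_lt c i hp
  have hql := S.P_lt (!c) i hq
  have hle : p + q ≤ n' := by omega
  obtain ⟨R, hR⟩ : 4 ^ π.m i ∣ n' - (p + q) := (Nat.modEq_iff_dvd' hle).1 hpq
  have hnR : n' = p + q + 4 ^ π.m i * R := by omega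
  have hR1 : 192 * 4 ^ π.s i ≤ R := by
    by_contra hcon
    push Not at hcon
    have h1 : 4 ^ π.m i * R ≤ 4 ^ π.m i * (192 * 4 ^ π.s i) := Nat.mul_le_mul_left _ hcon.le
    have h2 : 4 ^ π.m i * (192 * 4 ^ π.s i) = 192 * (4 ^ π.m i * 4 ^ π.s i) := by ring
    omega
  have hR2 : R < 256 * 4 ^ π.s i := by
    by_contra hcon
    push Not at hcon
    have h1 : 4 ^ π.m i * (256 * 4 ^ π.s i) ≤ 4 ^ π.m i * R := Nat.mul_le_mul_left _ hcon
    have h2 : 4 ^ π.m i * (256 * 4 ^ π.s i) = 256 * (4 ^ π.m i * 4 ^ π.s i) := by ring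
    omega
  obtain ⟨x, y, hxy⟩ := exists_co_split c R
  have h64 : (4 : ℕ) ^ (π.s i + 3) = 64 * 4 ^ π.s i := by rw [pow_add]; ring
  have h3 : R / 4 ^ (π.s i + 3) = 3 := by
    rw [Nat.div_eq_iff (by positivity), h64]
    omega
  have h4 := div_split c (π.s i + 3) x y
  rw [hxy, h3] at h4
  have h5 : co c * d (x / 2 ^ (π.s i + 3)) + co (!c) * d (y / 2 ^ (π.s i + 3)) =
      co c * d 1 + co (!c) * d 1 := by
    rw [← h4, d_one]
    cases c <;> simp
  obtain ⟨h6, h7⟩ := co_split_unique h5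
  have hx : 2 ^ (π.s i + 3) ≤ x := by
    by_contra hcon
    push Not at hcon
    rw [Nat.div_eq_of_lt hcon] at h6
    omega
  have hy : 2 ^ (π.s i + 3) ≤ y := by
    by_contra hcon
    push Not at hcon
    rw [Nat.div_eq_of_lt hcon] at h7
    omega
  have hyl : 2 ^ π.l i ≤ y :=
    (Nat.pow_le_pow_right (by norm_num) (by have := l_le_s (π := π) i; omega)).trans hy
  have hsum : p + 4 ^ π.m i * (co c * d x) + (q + 4 ^ π.m i * (co (!c) * d y)) = n' := by
    rw [hnR, ← hxy]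
    ring
  have hX := X_ge (π := π) (i + 1)
  have hzd : π.X (i + 1) * 1 ≤ π.X (i + 1) * d z :=
    Nat.mul_le_mul_left _ (hz.trans (le_d z))
  have hzc : 1 * (π.X (i + 1) * d z) ≤ co c * (π.X (i + 1) * d z) :=
    Nat.mul_le_mul_right _ (co_pos c)
  refine ⟨co c * (π.X (i + 1) * d z) + (p + 4 ^ π.m i * (co c * d x)) - 193 * 4 ^ π.m (i + 1),
    ⟨c, c, z, 1, p + 4 ^ π.m i * (co c * d x), hz, hz2, le_rfl, ⟨p, hp, x, rfl⟩, by omega,
      by omega⟩, co (!c) * (π.X (i + 1) * d z') + (q + 4 ^ π.m i * (co (!c) * d y)), ?_, by omega⟩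
  rcases Nat.eq_zero_or_pos z' with h0 | h0
  · left
    rw [h0, d_zero, mul_zero, mul_zero, zero_add]
    apply mem_A0 S hq hyl
    omega
  · right
    exact ⟨!c, !c, z', 0, q + 4 ^ π.m i * (co (!c) * d y), h0, hz3, by norm_num,
      ⟨q, hq, y, rfl⟩, by omega, by ring⟩

/-- elements of level `i` or `i + 1` -/
theorem elt (c : Bool) {i p x₀ z : ℕ} (hp : p ∈ S.P c i)
    (hx : x₀ < 2 ^ (π.s i + π.l (i + 1))) (h : z ≠ 0 ∨ 2 ^ π.l i ≤ x₀)
    (hlt : p + 4 ^ π.m i * (co c * (d x₀ + 4 ^ (π.s i + π.l (i + 1)) * d z) +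
      (if z = 0 then 0 else co (!c) * d (S.v c i p))) < π.X (i + 2)) :
    p + 4 ^ π.m i * (co c * (d x₀ + 4 ^ (π.s i + π.l (i + 1)) * d z) +
      (if z = 0 then 0 else co (!c) * d (S.v c i p))) ∈ S.A0 c := by
  have hpl := S.P_lt c i hp
  by_cases hz : z = 0
  · rw [if_pos hz, hz, d_zero, mul_zero, add_zero, add_zero]
    rw [if_pos hz, hz, d_zero, mul_zero, add_zero, add_zero] at hlt
    have h1 : 2 ^ π.l i ≤ x₀ := by
      rcases h with h | h
      · exact absurd hz h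
      · exact h
    apply mem_A0 S hp h1
    rw [X_succ_eq]
    have h2 := three_d_lt _ _ hx
    have h3 : co c * d x₀ ≤ 2 * d x₀ := Nat.mul_le_mul_right _ (co_le c)
    have h4 : co c * d x₀ + 1 ≤ 4 ^ (π.s i + π.l (i + 1)) := by omega
    have h5 := Nat.mul_le_mul_left (4 ^ π.m i) h4
    rw [mul_add] at h5
    omega
  · rw [if_neg hz] at hlt ⊢
    rw [← d_add _ _ _ hx] at hlt ⊢
    apply mem_A0_succ S hp _ hlt
    have h1 : 2 ^ (π.s i + π.l (i + 1)) * 1 ≤ 2 ^ (π.s i + π.l (i + 1)) * z :=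
      Nat.mul_le_mul_left _ (Nat.one_le_iff_ne_zero.2 hz)
    omega

theorem upper_lt {i n x y : ℕ} (hn : n < π.X (i + 2))
    (h : d x + 2 * d y = n / π.X (i + 1)) :
    x < 2 ^ (π.s (i + 1) + π.l (i + 2) - π.l (i + 1)) ∧
      y < 2 ^ (π.s (i + 1) + π.l (i + 2) - π.l (i + 1)) := by
  have hmono := π.mono (show i + 1 ≤ i + 2 by omega)
  have h1 : n / π.X (i + 1) < 4 ^ (π.s (i + 1) + π.l (i + 2) - π.l (i + 1)) := by
    rw [Nat.div_lt_iff_lt_mul (by unfold Par.X; positivity)]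
    refine hn.trans_le (le_of_eq ?_)
    unfold Par.X
    rw [← pow_add, π.m_succ (i + 1)]
    congr 1
    omega
  exact ⟨lt_of_d_lt _ _ (by omega), lt_of_d_lt _ _ (by omega)⟩

/-- the generic case -/
theorem caseB {i n : ℕ} (hn1 : π.X (i + 1) ≤ n) (hn2 : n < π.X (i + 2))
    (hn : 62 * 4 ^ π.m (i + 1) ≤ n % π.X (i + 1)) : ∃ e ∈ S.A, ∃ f ∈ S.A, e + f = n := by
  have hM := one_le_M (π := π) i
  have hMs := M_succ_eq (π := π) i
  have hXs := X_succ_eq (π := π) i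
  obtain ⟨p, hp, q, hq, hpq⟩ := S.decode_exists i n
  have hpl := S.P_lt true i hp
  have hql := S.P_lt false i hq
  set n₀ := n % π.X (i + 1) with hn₀
  set R₁ := n / π.X (i + 1) with hR₁
  have hXpos : 0 < π.X (i + 1) := by unfold Par.X; positivity
  have hn₀lt : n₀ < π.X (i + 1) := Nat.mod_lt _ hXpos
  have hnn : n₀ + π.X (i + 1) * R₁ = n := Nat.mod_add_div n _
  have hR₁pos : 1 ≤ R₁ := by
    rw [hR₁, Nat.one_le_div_iff hXpos]
    exact hn1
  have h16 : 1 ≤ 4 ^ π.s i := Nat.one_le_pow _ _ (by norm_num)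
  have h13 : 4 ^ π.m i * 1 ≤ 4 ^ π.m i * 4 ^ π.s i := Nat.mul_le_mul_left _ h16
  have hle : p + q ≤ n₀ := by omega
  obtain ⟨R₀, hR₀⟩ : 4 ^ π.m i ∣ n₀ - (p + q) := by
    apply (Nat.modEq_iff_dvd' hle).1
    have h1 : n₀ ≡ n [MOD 4 ^ π.m i] := by
      rw [← hnn, hXs, mul_assoc]
      unfold Nat.ModEq
      rw [Nat.add_mul_mod_self_left]
    exact Nat.ModEq.trans hpq h1.symm
  have hnR : n₀ = p + q + 4 ^ π.m i * R₀ := by omega
  have hR60 : 60 * 4 ^ π.s i ≤ R₀ := by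
    by_contra hcon
    push Not at hcon
    have h1 : 4 ^ π.m i * R₀ ≤ 4 ^ π.m i * (60 * 4 ^ π.s i) := Nat.mul_le_mul_left _ hcon.le
    have h2 : 4 ^ π.m i * (60 * 4 ^ π.s i) = 60 * (4 ^ π.m i * 4 ^ π.s i) := by ring
    omega
  have hRlt : R₀ < 4 ^ (π.s i + π.l (i + 1)) := by
    by_contra hcon
    push Not at hcon
    have h1 := Nat.mul_le_mul_left (4 ^ π.m i) hcon
    omega
  obtain ⟨x₁, y₁, hxy₁⟩ := exists_split R₁
  obtain ⟨hx₁, hy₁⟩ := upper_lt hn2 hxy₁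
  obtain ⟨h, hh⟩ : ∃ h, h = if x₁ = 0 then 0 else co (!true) * d (S.v true i p) := ⟨_, rfl⟩
  obtain ⟨g, hg⟩ : ∃ g, g = if y₁ = 0 then 0 else co (!false) * d (S.v false i q) := ⟨_, rfl⟩
  have hv1 := three_d_lt _ _ (S.hv true i p)
  have hv2 := three_d_lt _ _ (S.hv false i q)
  have hh2 : 3 * h ≤ 2 * 4 ^ π.s i := by
    rw [hh]
    split_ifs
    · omega
    · simp only [Bool.not_true, co_false]
      omega
  have hg2 : 3 * g ≤ 1 * 4 ^ π.s i := by
    rw [hg]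
    split_ifs
    · omega
    · simp only [Bool.not_false, co_true]
      omega
  obtain ⟨x₀, y₀, hxy₀⟩ := exists_split (R₀ - (h + g))
  have hR0eq : R₀ = d x₀ + 2 * d y₀ + (h + g) := by omega
  have hx₀ : x₀ < 2 ^ (π.s i + π.l (i + 1)) := lt_of_d_lt _ _ (by omega)
  have hy₀ : y₀ < 2 ^ (π.s i + π.l (i + 1)) := lt_of_d_lt _ _ (by omega)
  have hneq : n = p + q + 4 ^ π.m i * R₀ + π.X (i + 1) * (d x₁ + 2 * d y₁) := by
    rw [hxy₁, ← hnR]
    exact hnn.symm
  have hsum : (p + 4 ^ π.m i * (co true * (d x₀ + 4 ^ (π.s i + π.l (i + 1)) * d x₁) + h)) +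
      (q + 4 ^ π.m i * (co false * (d y₀ + 4 ^ (π.s i + π.l (i + 1)) * d y₁) + g)) = n := by
    rw [hneq, hR0eq, hXs]
    simp only [co_true, co_false]
    ring
  by_cases hA : x₁ ≠ 0 ∨ 2 ^ π.l i ≤ x₀
  · by_cases hB : y₁ ≠ 0 ∨ 2 ^ π.l i ≤ y₀
    · refine ⟨_, Or.inl ⟨true, ?_⟩, _, Or.inl ⟨false, ?_⟩, hsum⟩
      · rw [hh]
        exact elt S true hp hx₀ hA (by rw [← hh]; omega)
      · rw [hg]
        exact elt S false hq hy₀ hB (by rw [← hg]; omega)
    · push Not at hB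
      have hx1 : 1 ≤ x₁ := by
        rcases Nat.eq_zero_or_pos x₁ with h0 | h0
        · exfalso
          rw [h0, hB.1, d_zero] at hxy₁
          omega
        · exact h0
      rw [if_pos hB.1] at hg
      have hR : R₀ = co false * (d y₀ + d (S.v true i p)) + co (!false) * d x₀ := by
        rw [if_neg (by omega)] at hh
        simp only [co_false, Bool.not_false, co_true, Bool.not_true] at hh ⊢
        omega
      obtain ⟨e, he, f, hf, hef⟩ := small S false hq hp hx1 hx₁ hB.2 (S.hv true i p) hR hR60 hRlt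
      refine ⟨e, Or.inr ⟨i, he⟩, f, Or.inl ⟨!false, hf⟩, ?_⟩
      rw [hef, hneq, hB.1, d_zero]
      simp only [Bool.not_false, co_true]
      ring
  · push Not at hA
    have hy1 : 1 ≤ y₁ := by
      rcases Nat.eq_zero_or_pos y₁ with h0 | h0
      · exfalso
        rw [h0, hA.1, d_zero] at hxy₁
        omega
      · exact h0
    rw [if_pos hA.1] at hh
    have hR : R₀ = co true * (d x₀ + d (S.v false i q)) + co (!true) * d y₀ := by
      rw [if_neg (by omega)] at hg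
      simp only [co_false, Bool.not_false, co_true, Bool.not_true] at hg ⊢
      omega
    obtain ⟨e, he, f, hf, hef⟩ := small S true hp hq hy1 hy₁ hA.2 (S.hv false i q) hR hR60 hRlt
    refine ⟨e, Or.inr ⟨i, he⟩, f, Or.inl ⟨!true, hf⟩, ?_⟩
    rw [hef, hneq, hA.1, d_zero]
    simp only [Bool.not_true, co_false]
    ring

theorem exists_level {n : ℕ} (hn : π.X 1 ≤ n) : ∃ i, π.X (i + 1) ≤ n ∧ n < π.X (i + 2) := by
  have hlt : ∀ i, i < π.X i := by
    intro i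
    unfold Par.X
    have h1 := π.m_ge i
    calc i < 4 ^ i := Nat.lt_pow_self (by norm_num)
      _ ≤ 4 ^ (π.m i + π.l i) := Nat.pow_le_pow_right (by norm_num) (by omega)
  have hex : ∃ j, n < π.X j := ⟨n, hlt n⟩
  classical
  have h1 := Nat.find_spec hex
  have h2 : ∀ k < Nat.find hex, ¬ n < π.X k := fun k hk => Nat.find_min hex hk
  have hmono : ∀ i, π.X i ≤ π.X (i + 1) := by
    intro i
    unfold Par.X
    apply Nat.pow_le_pow_right (by norm_num)
    have h3 := π.m_mono (show i ≤ i + 1 by omega)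
    have h4 := π.mono (show i ≤ i + 1 by omega)
    omega
  have h3 : 2 ≤ Nat.find hex := by
    by_contra hcon
    push Not at hcon
    have h4 : Nat.find hex = 0 ∨ Nat.find hex = 1 := by omega
    have h5 := hmono 0
    rcases h4 with h4 | h4
    · rw [h4] at h1
      simp only [zero_add] at h5
      omega
    · rw [h4] at h1
      omega
  refine ⟨Nat.find hex - 2, ?_, ?_⟩
  · have h6 := h2 (Nat.find hex - 1) (by omega)
    push Not at h6
    have h7 : Nat.find hex - 2 + 1 = Nat.find hex - 1 := by omega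
    rw [h7]
    exact h6
  · have h7 : Nat.find hex - 2 + 2 = Nat.find hex := by omega
    rw [h7]
    exact h1

theorem t_COV : S_COV := by
  intro π S n hn
  obtain ⟨i, h1, h2⟩ := exists_level hn
  by_cases h : 62 * 4 ^ π.m (i + 1) ≤ n % π.X (i + 1)
  · exact caseB S h1 h2 h
  · push Not at h
    obtain ⟨x₁, y₁, hxy₁⟩ := exists_split (n / π.X (i + 1))
    obtain ⟨hx₁, hy₁⟩ := upper_lt h2 hxy₁
    have hXpos : 0 < π.X (i + 1) := by unfold Par.X; positivity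
    have hR₁pos : 1 ≤ n / π.X (i + 1) := by
      rw [Nat.one_le_div_iff hXpos]
      exact h1
    have hnn : n % π.X (i + 1) + π.X (i + 1) * (n / π.X (i + 1)) = n := Nat.mod_add_div n _
    rcases Nat.eq_zero_or_pos x₁ with h0 | h0
    · have hy1 : 1 ≤ y₁ := by
        rcases Nat.eq_zero_or_pos y₁ with h3 | h3
        · exfalso
          rw [h0, h3, d_zero] at hxy₁
          omega
        · exact h3
      obtain ⟨e, he, f, hf, hef⟩ := caseA S false h hy1 hy₁ hx₁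
      refine ⟨e, Or.inr ⟨i, he⟩, f, ?_, ?_⟩
      · rcases hf with hf | hf
        · exact Or.inl ⟨_, hf⟩
        · exact Or.inr ⟨i, hf⟩
      · rw [hef]
        conv_rhs => rw [← hnn, ← hxy₁]
        simp only [co_false, Bool.not_false, co_true]
        ring
    · obtain ⟨e, he, f, hf, hef⟩ := caseA S true h h0 hx₁ hy₁
      refine ⟨e, Or.inr ⟨i, he⟩, f, ?_, ?_⟩
      · rcases hf with hf | hf
        · exact Or.inl ⟨_, hf⟩
        · exact Or.inr ⟨i, hf⟩
      · rw [hef]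
        conv_rhs => rw [← hnn, ← hxy₁]
        simp only [co_false, Bool.not_true, co_true]
        ring

end Pool.Agent.V5helper43.NC
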