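import Pool.Agent.V5helper85.NC.FIN2
import Pool.Agent.V5helper43.NC.COV
import Pool.Agent.V5helper50.NC.SYS
import Pool.Agent.V5helper50.NC.UNC
import Pool.Agent.V5helper55.NC.MIX
import Pool.Agent.V5helper6.NC.GEN
import Pool.Agent.V5helper95.NC.INJ
import Pool.Agent.V5helper98.NC.REP
import Pool.Agent.V5helper98.NC.SAME
import Pool.Agent.V5helper4.NC.CNTB

/-!
# Project NC: the construction for a general rate `ω`

The block lengths are `l i = 5 + ω (m i)`.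
-/

set_option autoImplicit false

open Finset

namespace Pool.Agent.V5helper43.NC

theorem sys_ex : S_SYS := Pool.Agent.V5helper50.NC.t_SYS

theorem cov : S_COV := t_COV

theorem inj : S_INJ := Pool.Agent.V5helper95.NC.t_INJ

theorem cntB : S_CNTB := Pool.Agent.V5helper4.NC.t_CNTB

theorem cntA : S_CNTA :=
  Pool.Agent.V5helper85.NC.t_CNTA (Pool.Agent.V5helper95.NC.t_CNT0 inj) cntB

theorem mix : S_MIX :=
  Pool.Agent.V5helper55.NC.t_MIX (Pool.Agent.V5helper95.NC.t_PAIRS inj)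
    (Pool.Agent.V5helper50.NC.t_UNC Pool.Agent.V5helper6.NC.t_GEN)

theorem exc : S_EXC :=
  Pool.Agent.V5helper85.NC.t_EXC mix Pool.Agent.V5helper98.NC.t_SAME cntB cntA

theorem repb : S_REP := Pool.Agent.V5helper98.NC.t_REP

/-- block positions for the rate `ω` -/
def pos (ω : ℕ → ℕ) : ℕ → ℕ
  | 0 => 0
  | i + 1 => pos ω i + 2 * (5 + ω (pos ω i))

theorem pos_zero (ω : ℕ → ℕ) : pos ω 0 = 0 := rfl

theorem pos_succ (ω : ℕ → ℕ) (i : ℕ) : pos ω (i + 1) = pos ω i + 2 * (5 + ω (pos ω i)) := rfl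

theorem pos_mono (ω : ℕ → ℕ) : Monotone (pos ω) :=
  monotone_nat_of_le_succ fun i => by rw [pos_succ]; omega

/-- the parameters for the rate `ω` -/
def parw (ω : ℕ → ℕ) (h : Monotone ω) : Par where
  l := fun i => 5 + ω (pos ω i)
  mono := fun _ _ hij => Nat.add_le_add_left (h (pos_mono ω hij)) 5
  five := fun _ => Nat.le_add_right 5 _

theorem parw_l (ω : ℕ → ℕ) (h : Monotone ω) (i : ℕ) : (parw ω h).l i = 5 + ω (pos ω i) := rfl

theorem parw_s (ω : ℕ → ℕ) (h : Monotone ω) (i : ℕ) :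
    (parw ω h).s i = 2 * (5 + ω (pos ω i)) := rfl

theorem parw_m (ω : ℕ → ℕ) (h : Monotone ω) (i : ℕ) : (parw ω h).m i = pos ω i := by
  induction i with
  | zero => rfl
  | succ i ih => rw [Par.m_succ, ih, parw_s, pos_succ]

section

variable {ω : ℕ → ℕ} (hm : Monotone ω) (h16 : ∀ t, 16 * ω t ≤ t) {D : ℕ}
  (h2 : ∀ t, ω (2 * t) ≤ 2 * ω t + D)

include h16 in
theorem pos_succ_le (i : ℕ) : 8 * pos ω (i + 1) ≤ 9 * pos ω i + 80 := by
  have := h16 (pos ω i)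
  rw [pos_succ]
  omega

include h16 in
theorem rate_two : pos ω 2 + (5 + ω (pos ω 2)) ≤ 40 := by
  have e0 := pos_zero ω
  have h0 := pos_succ_le h16 0
  have h1 := pos_succ_le h16 1
  have h3 := h16 (pos ω 2)
  simp only [zero_add, one_add_one_eq_two] at h0 h1
  omega

include hm h16 h2 in
/-- the rate at a place which is comparable with the place `pos ω (j + 3)` -/
theorem rate_le (j k T : ℕ) (hk : k ≤ pos ω (j + 3) + (5 + ω (pos ω (j + 3)))) (hT : T ≤ 2 * k) :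
    ω T ≤ 4 * ω (pos ω j) + 3 * D + 21 := by
  have a1 := pos_succ_le h16 j
  have a2 := pos_succ_le h16 (j + 1)
  have a3 := pos_succ_le h16 (j + 2)
  have a4 := h16 (pos ω (j + 3))
  rw [show j + 1 + 1 = j + 2 from rfl] at a2
  rw [show j + 2 + 1 = j + 3 from rfl] at a3
  rcases Nat.lt_or_ge (pos ω j) 85 with h | h
  · have h5 : T ≤ 340 := by omega
    have h6 := h16 T
    omega
  · have h5 : T ≤ 2 * (2 * pos ω j) := by omega
    have h6 := hm h5
    have h7 := h2 (2 * pos ω j)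
    have h8 := h2 (pos ω j)
    omega

include hm h16 h2 in
/-- the exponent in the bound for the number of representations -/
theorem expo_le (J T : ℕ) (hT : 2 * (pos ω J + (5 + ω (pos ω J))) ≤ T) :
    4 * (5 + ω (pos ω J)) + 2 * (5 + ω (pos ω (J + 1))) + (5 + ω (pos ω (J + 2))) + 7 ≤
      8 * ω T + D + 42 := by
  have e1 := pos_succ ω J
  have e2 := pos_succ ω (J + 1)
  rw [show J + 1 + 1 = J + 2 from rfl] at e2
  have b1 : ω (pos ω J) ≤ ω T := hm (by omega)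
  have b2 : ω (pos ω (J + 1)) ≤ ω T := hm (by omega)
  have b3 := h16 T
  have b4 : ω (pos ω (J + 2)) ≤ ω (2 * T) := hm (by omega)
  have b5 := h2 T
  omega

theorem count_gen (A : Set ℕ) (k0 : ℕ) (h : ∀ k, k0 ≤ k → cnt A (4 ^ k) ≤ 34 * 2 ^ k) (x : ℕ)
    (hx : 1 ≤ x) : ({a | a ∈ A ∧ a ≤ x}.ncard : ℝ) ≤ (34 * 2 ^ (k0 + 1)) * Real.sqrt x := by
  set k := Nat.log 4 x with hk
  have h1 : 4 ^ k ≤ x := Nat.pow_log_le_self 4 (by omega)
  have h2 : x < 4 ^ (k + 1) := Nat.lt_pow_succ_log_self (by norm_num) x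
  have h3 : {a | a ∈ A ∧ a ≤ x}.ncard ≤ cnt A (4 ^ (k + (k0 + 1))) := by
    unfold cnt
    apply Set.ncard_le_ncard _ (Pool.Agent.V5helper85.NC.finite_cnt A _)
    rintro a ⟨ha, hax⟩
    refine ⟨ha, ?_⟩
    have : 4 ^ (k + 1) ≤ 4 ^ (k + (k0 + 1)) := Nat.pow_le_pow_right (by norm_num) (by omega)
    omega
  have h4 := h (k + (k0 + 1)) (by omega)
  have h5 : (2 : ℝ) ^ k ≤ Real.sqrt x := by
    apply Real.le_sqrt_of_sq_le
    have : ((2 : ℝ) ^ k) ^ 2 = (4 : ℝ) ^ k := by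
      rw [← pow_mul, mul_comm, pow_mul]
      norm_num
    rw [this]
    exact_mod_cast h1
  calc ({a | a ∈ A ∧ a ≤ x}.ncard : ℝ) ≤ ((34 * 2 ^ (k + (k0 + 1)) : ℕ) : ℝ) := by
        exact_mod_cast h3.trans h4
    _ = (34 * 2 ^ (k0 + 1)) * 2 ^ k := by push_cast; ring
    _ ≤ (34 * 2 ^ (k0 + 1)) * Real.sqrt x := by gcongr

theorem exists_level' (π : Par) (n : ℕ) :
    ∃ J : ℕ, n < π.X (J + 1) ∧ (J = 0 ∨ π.X J ≤ n) := by
  classical
  have hex : ∃ J, n < π.X (J + 1) := by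
    refine ⟨n, ?_⟩
    unfold Par.X
    have h1 : n < 4 ^ n := Nat.lt_pow_self (by norm_num)
    have h2 : 4 ^ n ≤ 4 ^ (π.m (n + 1) + π.l (n + 1)) := by
      apply Nat.pow_le_pow_right (by norm_num)
      have := π.m_ge (n + 1)
      omega
    omega
  refine ⟨Nat.find hex, Nat.find_spec hex, ?_⟩
  rcases Nat.eq_zero_or_pos (Nat.find hex) with h0 | h0
  · exact Or.inl h0
  · right
    obtain ⟨i, hi⟩ : ∃ i, Nat.find hex = i + 1 := ⟨Nat.find hex - 1, by omega⟩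
    have h2 : ¬ n < π.X (i + 1) := Nat.find_min hex (by omega)
    rw [hi]
    exact not_lt.1 h2

theorem natlog_le (n : ℕ) (hn : 1 ≤ n) : (Nat.log 2 n : ℝ) ≤ 2 * Real.log n := by
  have hl2 : (0.6931471803 : ℝ) < Real.log 2 := Real.log_two_gt_d9
  have hTn : 2 ^ Nat.log 2 n ≤ n := Nat.pow_log_le_self 2 (by omega)
  have h10 : ((2 : ℝ)) ^ Nat.log 2 n ≤ n := by exact_mod_cast hTn
  have h11 : Real.log ((2 : ℝ) ^ Nat.log 2 n) ≤ Real.log n := Real.log_le_log (by positivity) h10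
  rw [Real.log_pow] at h11
  have h12 : (0 : ℝ) ≤ Nat.log 2 n := Nat.cast_nonneg _
  nlinarith

include hm in
theorem ten_le_pos (i : ℕ) : 10 * i ≤ pos ω i := by
  rw [← parw_m ω hm i]
  exact (parw ω hm).m_ge i

include hm h16 h2 in
/-- the bound for the number of representations -/
theorem rep_gen (S : Sys (parw ω hm)) (n : ℕ) (hn : 2 ≤ n) :
    (rep S.A n : ℝ) ≤ 2 ^ (D + 60) *
      (Real.log n ^ 3 * 2 ^ (8 * ω (Nat.log 2 n))) := by
  have hlog : (0 : ℝ) < Real.log 2 := Real.log_pos (by norm_num)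
  have hl2 : (0.6931471803 : ℝ) < Real.log 2 := Real.log_two_gt_d9
  have hnr : (2 : ℝ) ≤ n := by exact_mod_cast hn
  have hln : Real.log 2 ≤ Real.log n := Real.log_le_log (by norm_num) hnr
  obtain ⟨J, hJ1, hJ2⟩ := exists_level' (parw ω hm) n
  have hR := repb (parw ω hm) S J n hJ1
  unfold Par.zb at hR
  rw [parw_s, parw_s, parw_l, parw_m] at hR
  set T := Nat.log 2 n with hT
  have hTn : 2 ^ T ≤ n := Nat.pow_log_le_self 2 (by omega)
  rcases hJ2 with h0 | h0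
  · -- small `n`
    subst h0
    have e0 := pos_zero ω
    have e1 := pos_succ ω 0
    have e2 := pos_succ ω 1
    have f0 := h16 (pos ω 0)
    have f1 := h16 (pos ω 1)
    have f2 := h16 (pos ω 2)
    simp only [zero_add, one_add_one_eq_two] at e1 e2 hR
    have g0 : ω (pos ω 0) = 0 := by omega
    have g1 : ω (pos ω 1) = 0 := by omega
    have g2 : ω (pos ω 2) ≤ 1 := by omega
    rw [g0, g1, e0] at hR
    have h3 : 2 ^ (2 * (5 + 0) + 2 * (5 + 0) + (5 + ω (pos ω 2)) + 7) ≤ 2 ^ 33 :=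
      Nat.pow_le_pow_right (by norm_num) (by omega)
    have h4 : rep S.A n ≤ 2 ^ 48 := by
      refine hR.trans ?_
      calc _ ≤ 8 * 1 * (4 * 2 ^ (2 * (5 + 0)) * 1 * (1 + 2 * 0)) * 2 ^ 33 := by
            gcongr
        _ ≤ 2 ^ 48 := by norm_num
    have h5 : (rep S.A n : ℝ) ≤ 2 ^ 48 := by exact_mod_cast h4
    have h6 : (1 : ℝ) / 8 ≤ Real.log n ^ 3 := by
      have h7 : (1 : ℝ) / 2 ≤ Real.log n := by linarith
      calc (1 : ℝ) / 8 = (1 / 2) ^ 3 := by norm_num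
        _ ≤ Real.log n ^ 3 := by gcongr
    have h8 : (1 : ℝ) ≤ 2 ^ (8 * ω T) := one_le_pow₀ (by norm_num)
    have h9 : (2 : ℝ) ^ 60 ≤ 2 ^ (D + 60) := pow_le_pow_right₀ (by norm_num) (by omega)
    calc (rep S.A n : ℝ) ≤ 2 ^ 60 * (1 / 8 * 1) := by linarith
      _ ≤ 2 ^ (D + 60) * (Real.log n ^ 3 * 2 ^ (8 * ω T)) := by gcongr
  · -- large `n`
    have h3 : 2 * (pos ω J + (5 + ω (pos ω J))) ≤ T := by
      rw [hT]
      apply Nat.le_log_of_pow_le (by norm_num)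
      rw [pow_mul]
      unfold Par.X at h0
      rw [parw_m, parw_l] at h0
      exact h0
    have h4 := expo_le hm h16 h2 J T h3
    have h5 := ten_le_pos hm J
    have h6 : J + 1 ≤ T := by omega
    have h7 : J + 1 + 2 * pos ω J ≤ 2 * T := by omega
    have h8 : rep S.A n ≤ 64 * T ^ 3 * 2 ^ (8 * ω T + D + 42) := by
      refine hR.trans ?_
      calc 8 * (J + 1) * (4 * 2 ^ (2 * (5 + ω (pos ω J))) * (J + 1) * (J + 1 + 2 * pos ω J)) *
            2 ^ (2 * (5 + ω (pos ω J)) + 2 * (5 + ω (pos ω (J + 1))) + (5 + ω (pos ω (J + 2))) + 7)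
          ≤ 8 * T * (4 * 2 ^ (2 * (5 + ω (pos ω J))) * T * (2 * T)) *
            2 ^ (2 * (5 + ω (pos ω J)) + 2 * (5 + ω (pos ω (J + 1))) +
              (5 + ω (pos ω (J + 2))) + 7) := by gcongr
        _ = 64 * T ^ 3 * 2 ^ (4 * (5 + ω (pos ω J)) + 2 * (5 + ω (pos ω (J + 1))) +
              (5 + ω (pos ω (J + 2))) + 7) := by
            rw [show 4 * (5 + ω (pos ω J)) + 2 * (5 + ω (pos ω (J + 1))) +
              (5 + ω (pos ω (J + 2))) + 7 = 2 * (5 + ω (pos ω J)) +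
              (2 * (5 + ω (pos ω J)) + 2 * (5 + ω (pos ω (J + 1))) +
              (5 + ω (pos ω (J + 2))) + 7) by ring]
            rw [pow_add 2 (2 * (5 + ω (pos ω J)))]
            ring
        _ ≤ 64 * T ^ 3 * 2 ^ (8 * ω T + D + 42) := by gcongr; norm_num
    have h9 : (T : ℝ) ≤ 2 * Real.log n := natlog_le n (by omega)
    have hL0 : (0 : ℝ) ≤ Real.log n := by linarith
    have h10 : (rep S.A n : ℝ) ≤ 64 * (T : ℝ) ^ 3 * 2 ^ (8 * ω T + D + 42) := by exact_mod_cast h8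
    have e1 : (2 : ℝ) ^ (8 * ω T + D + 42) = 2 ^ (D + 42) * 2 ^ (8 * ω T) := by
      rw [← pow_add]
      congr 1
      ring
    have e2 : (2 : ℝ) ^ (D + 42) * 2 ^ 9 = 2 ^ (D + 51) := by
      rw [← pow_add]
    have e3 : (2 : ℝ) ^ (D + 51) ≤ 2 ^ (D + 60) := pow_le_pow_right₀ (by norm_num) (by omega)
    generalize hb : (2 : ℝ) ^ (8 * ω T) = b at *
    have hb0 : 0 < b := by rw [← hb]; positivity
    have ha0 : (0 : ℝ) < 2 ^ (D + 42) := by positivity
    rw [e1] at h10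
    refine h10.trans ?_
    refine le_trans ?_ (mul_le_mul_of_nonneg_right e3 (by positivity))
    rw [← e2]
    generalize (2 : ℝ) ^ (D + 42) = a at *
    have h13 : (T : ℝ) ^ 3 ≤ (2 * Real.log n) ^ 3 := pow_le_pow_left₀ (Nat.cast_nonneg _) h9 3
    calc 64 * (T : ℝ) ^ 3 * (a * b) ≤ 64 * (2 * Real.log n) ^ 3 * (a * b) := by gcongr
      _ = a * 2 ^ 9 * (Real.log n ^ 3 * b) := by ring

include hm h16 h2 in
/-- the bound for the number of exceptions -/
theorem exc_gen (S : Sys (parw ω hm)) (x : ℕ) (hx : 1 ≤ x) :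
    ({n | n ≤ x ∧ rep S.A n ≠ 2}.ncard : ℝ) ≤
      (160000 * Real.exp (D + 2)) * (x * Real.exp (-((ω (Nat.log 2 x) : ℝ) / 16))) := by
  set K := Nat.log 4 x with hK
  set T := Nat.log 2 x with hT
  have h1 : 4 ^ K ≤ x := Nat.pow_log_le_self 4 (by omega)
  have h3 : x < 4 ^ (K + 1) := Nat.lt_pow_succ_log_self (by norm_num) x
  have hT2 : T ≤ 2 * (K + 1) := by
    rw [hT]
    apply (Nat.log_mono_right h3.le).trans
    rw [show (4 : ℕ) = 2 ^ 2 by norm_num, ← pow_mul, Nat.log_pow (by norm_num)]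
  have hx0 : (0 : ℝ) < x := by exact_mod_cast (by omega : 0 < x)
  have hx1 : (1 : ℝ) ≤ x := by exact_mod_cast hx
  have hD0 : (0 : ℝ) ≤ D := Nat.cast_nonneg _
  rcases Nat.lt_or_ge (K + 1) 40 with hK2 | hK2
  · -- small x
    have h4 : {n | n ≤ x ∧ rep S.A n ≠ 2}.ncard ≤ x + 1 := by
      refine le_trans (Set.ncard_le_ncard (t := Set.Iic x) (fun n hn => hn.1) (Set.finite_Iic x)) ?_
      rw [← Finset.coe_Iic, Set.ncard_coe_finset]
      simp
    have h5 : ({n | n ≤ x ∧ rep S.A n ≠ 2}.ncard : ℝ) ≤ x + 1 := by exact_mod_cast h4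
    have h6 : ω T ≤ 5 := by
      have := h16 T
      omega
    have h7 : (ω T : ℝ) ≤ 5 := by exact_mod_cast h6
    have h8 : (1 : ℝ) ≤ Real.exp (D + 2) * Real.exp (-((ω T : ℝ) / 16)) := by
      rw [← Real.exp_add]
      apply Real.one_le_exp
      linarith
    have h9 : (x : ℝ) ≤ x * (Real.exp (D + 2) * Real.exp (-((ω T : ℝ) / 16))) :=
      le_mul_of_one_le_right hx0.le h8
    linarith
  · -- large x
    have h4 : (parw ω hm).m 2 + (parw ω hm).l 2 ≤ K + 1 := by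
      rw [parw_m, parw_l]
      exact (rate_two h16).trans hK2
    obtain ⟨j, hj1, hj2⟩ := Pool.Agent.V5helper85.NC.exists_j (parw ω hm) h4
    have h5 := exc (parw ω hm) S j (K + 1) hj1 hj2
    rw [parw_l] at h5
    rw [parw_m, parw_l] at hj2
    have h6 := rate_le hm h16 h2 j (K + 1) T hj2 hT2
    set L := ω (pos ω j) with hL
    have h7 : {n | n ≤ x ∧ rep S.A n ≠ 2}.ncard ≤ {n | n < 4 ^ (K + 1) ∧ rep S.A n ≠ 2}.ncard := by
      apply Set.ncard_le_ncard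
      · rintro n ⟨hn, he⟩
        exact ⟨by omega, he⟩
      · exact (Set.finite_lt_nat _).subset fun _ hh => hh.1
    set N := {n | n < 4 ^ (K + 1) ∧ rep S.A n ≠ 2}.ncard with hN
    have h8 : (N : ℝ) * 4 ^ (5 + L) ≤ 40000 * 4 ^ (K + 1) * 3 ^ (5 + L) := by exact_mod_cast h5
    have h9 : (4 : ℝ) ^ (K + 1) ≤ 4 * x := by
      rw [pow_succ]
      have : ((4 : ℝ)) ^ K ≤ x := by exact_mod_cast h1
      linarith
    have h10 : (N : ℝ) ≤ 160000 * (x * (3 / 4) ^ (5 + L)) := by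
      have h11 : (N : ℝ) * 4 ^ (5 + L) ≤ (160000 * (x * (3 / 4) ^ (5 + L))) * 4 ^ (5 + L) := by
        have e : (160000 * ((x : ℝ) * (3 / 4) ^ (5 + L))) * 4 ^ (5 + L)
            = 40000 * (4 * x) * 3 ^ (5 + L) := by
          rw [div_pow]
          field_simp
          ring
        rw [e]
        refine h8.trans ?_
        gcongr
      exact le_of_mul_le_mul_right h11 (by positivity)
    have h12 : ((3 : ℝ) / 4) ^ (5 + L) ≤ Real.exp (-((5 : ℝ) + L) / 4) := by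
      have h11 : (3 : ℝ) / 4 ≤ Real.exp (-1 / 4) := by
        have := Real.add_one_le_exp (-1 / 4 : ℝ)
        linarith
      calc ((3 : ℝ) / 4) ^ (5 + L) ≤ (Real.exp (-1 / 4)) ^ (5 + L) := by gcongr
        _ = Real.exp (-((5 : ℝ) + L) / 4) := by
          rw [← Real.exp_nat_mul]
          congr 1
          push_cast
          ring
    have h13 : (ω T : ℝ) ≤ 4 * L + 3 * D + 21 := by exact_mod_cast h6
    have h14 : Real.exp (-((5 : ℝ) + L) / 4) ≤
        Real.exp (D + 2) * Real.exp (-((ω T : ℝ) / 16)) := by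
      rw [← Real.exp_add]
      apply Real.exp_le_exp.2
      linarith
    calc ({n | n ≤ x ∧ rep S.A n ≠ 2}.ncard : ℝ) ≤ N := by exact_mod_cast h7
      _ ≤ 160000 * (x * (3 / 4) ^ (5 + L)) := h10
      _ ≤ 160000 * (x * (Real.exp (D + 2) * Real.exp (-((ω T : ℝ) / 16)))) := by
          gcongr
          exact h12.trans h14
      _ = _ := by ring

include hm h16 h2 in
/-- the construction for a general rate -/
theorem gen : ∃ A : Set ℕ, (∃ n₀ : ℕ, ∀ n, n₀ ≤ n → 1 ≤ rep A n) ∧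
    (∃ C : ℝ, ∀ x : ℕ, 1 ≤ x → ({a | a ∈ A ∧ a ≤ x}.ncard : ℝ) ≤ C * Real.sqrt x) ∧
    (∃ C : ℝ, 0 < C ∧ ∀ n : ℕ, 2 ≤ n → (rep A n : ℝ) ≤
      C * (Real.log n ^ 3 * 2 ^ (8 * ω (Nat.log 2 n)))) ∧
    (∃ C : ℝ, 0 < C ∧ ∀ x : ℕ, 1 ≤ x → ({n | n ≤ x ∧ rep A n ≠ 2}.ncard : ℝ) ≤
      C * (x * Real.exp (-((ω (Nat.log 2 x) : ℝ) / 16)))) := by
  obtain ⟨S⟩ := sys_ex (parw ω hm)
  refine ⟨S.A, ⟨(parw ω hm).X 1, fun n hn =>
    Pool.Agent.V5helper85.NC.one_le_rep (cov (parw ω hm) S n hn)⟩, ⟨34 * 2 ^ (40 + 1), ?_⟩,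
    ⟨2 ^ (D + 60), by positivity, fun n hn => rep_gen hm h16 h2 S n hn⟩,
    ⟨160000 * Real.exp (D + 2), by positivity, fun x hx => exc_gen hm h16 h2 S x hx⟩⟩
  intro x hx
  apply count_gen S.A 40 _ x hx
  intro k hk
  apply cntA (parw ω hm) S k
  rw [parw_m, parw_l]
  exact (rate_two h16).trans hk

end

end Pool.Agent.V5helper43.NC
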