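import Pool.Agent.V5helper43.NC.Stm

/-! # Project NC: common lemmas -/

set_option autoImplicit false

open Finset

namespace Pool.Agent.V5helper43.NC

open Pool.Agent.Y940.HB (d co Z ext co_true co_false mem_ext ext_lt card_ext co_lt split_unique
  co_split_unique exists_split d_add three_d_lt lt_of_d_lt le_d d_zero d_inj co_pos)

/-- splitting with a colour -/
theorem exists_co_split (c : Bool) (R : ℕ) : ∃ x y : ℕ, co c * d x + co (!c) * d y = R := by
  obtain ⟨x, y, h⟩ := exists_split R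
  cases c
  · exact ⟨y, x, by simp only [co_false, Bool.not_false, co_true]; omega⟩
  · exact ⟨x, y, by simpa using h⟩

theorem d_one : d 1 = 1 := by
  have := Pool.Agent.Y940.HB.d_two_mul_add 0 1 (by norm_num)
  simpa [d_zero] using this

theorem co_le (c : Bool) : co c ≤ 2 := by cases c <;> simp

/-- lower and upper digits -/
theorem d_split (t x : ℕ) : d x = d (x % 2 ^ t) + 4 ^ t * d (x / 2 ^ t) := by
  have h := d_add t (x % 2 ^ t) (x / 2 ^ t) (Nat.mod_lt _ (by positivity))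
  rwa [Nat.mod_add_div] at h

theorem pow_le_d {t x : ℕ} (h : 2 ^ t ≤ x) : 4 ^ t ≤ d x := by
  by_contra hcon
  push Not at hcon
  exact absurd (lt_of_d_lt t x hcon) (not_lt.2 h)

theorem d_lt {t x : ℕ} (h : x < 2 ^ t) : d x < 4 ^ t := by
  have := three_d_lt t x h
  omega

/-- digits above `4 ^ t` of a split -/
theorem div_split (c : Bool) (t x y : ℕ) : (co c * d x + co (!c) * d y) / 4 ^ t =
    co c * d (x / 2 ^ t) + co (!c) * d (y / 2 ^ t) := by
  have h1 : co c * d (x % 2 ^ t) + co (!c) * d (y % 2 ^ t) < 4 ^ t :=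
    co_lt (Nat.mod_lt _ (by positivity)) (Nat.mod_lt _ (by positivity))
  rw [d_split t x, d_split t y]
  have e : co c * (d (x % 2 ^ t) + 4 ^ t * d (x / 2 ^ t)) +
      co (!c) * (d (y % 2 ^ t) + 4 ^ t * d (y / 2 ^ t)) =
      (co c * d (x % 2 ^ t) + co (!c) * d (y % 2 ^ t)) +
        4 ^ t * (co c * d (x / 2 ^ t) + co (!c) * d (y / 2 ^ t)) := by ring
  rw [e, Nat.add_mul_div_left _ _ (by positivity), Nat.div_eq_of_lt h1, zero_add]

theorem carry_one (c : Bool) {δ b x y : ℕ} (hδ : δ ≤ 1)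
    (h : δ + co (!c) * d b = co c * d x + co (!c) * d y) : x ≤ 1 := by
  cases c
  · -- `co (!c) = 1`, `co c = 2`
    simp only [co_false, Bool.not_false, co_true, one_mul] at h
    have hb := Pool.Agent.Y940.HB.d_eq b
    have hb2 : b % 2 < 2 := Nat.mod_lt _ (by norm_num)
    have h2 : ∃ x' y', x' ≤ 1 ∧ d y' + 2 * d x' = δ + d b := by
      rcases Nat.eq_zero_or_pos δ with h0 | h0
      · exact ⟨0, b, by norm_num, by rw [h0, d_zero]; ring⟩
      · have h1 : δ = 1 := by omega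
        rcases Nat.eq_zero_or_pos (b % 2) with h3 | h3
        · refine ⟨0, 2 * (b / 2) + 1, by norm_num, ?_⟩
          rw [Pool.Agent.Y940.HB.d_two_mul_add _ _ (by norm_num), d_zero, h1]
          omega
        · refine ⟨1, 2 * (b / 2) + 0, le_rfl, ?_⟩
          rw [Pool.Agent.Y940.HB.d_two_mul_add _ _ (by norm_num), d_one, h1]
          omega
    obtain ⟨x', y', hx', he⟩ := h2
    have := split_unique (x := y') (y := x') (x' := y) (y' := x) (by omega)
    omega
  · simp only [co_false, Bool.not_true, co_true, one_mul] at h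
    have h2 : ∃ x' y', x' ≤ 1 ∧ d x' + 2 * d y' = δ + 2 * d b := by
      rcases Nat.eq_zero_or_pos δ with h0 | h0
      · exact ⟨0, b, by norm_num, by rw [h0, d_zero]⟩
      · have h1 : δ = 1 := by omega
        exact ⟨1, b, le_rfl, by rw [h1, d_one]⟩
    obtain ⟨x', y', hx', he⟩ := h2
    have := split_unique (x := x') (y := y') (x' := x) (y' := y) (by omega)
    omega

theorem carry (c : Bool) {t A₀ b x y : ℕ} (hA : A₀ < 4 ^ t)
    (h : A₀ + co (!c) * d b = co c * d x + co (!c) * d y) : x < 2 ^ (t + 1) := by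
  have h1 : (A₀ + co (!c) * d b) / 4 ^ t =
      (A₀ + co (!c) * d (b % 2 ^ t)) / 4 ^ t + co (!c) * d (b / 2 ^ t) := by
    rw [d_split t b]
    have e : A₀ + co (!c) * (d (b % 2 ^ t) + 4 ^ t * d (b / 2 ^ t)) =
        (A₀ + co (!c) * d (b % 2 ^ t)) + 4 ^ t * (co (!c) * d (b / 2 ^ t)) := by ring
    rw [e, Nat.add_mul_div_left _ _ (by positivity)]
  have h2 : (A₀ + co (!c) * d (b % 2 ^ t)) / 4 ^ t ≤ 1 := by
    have h3 : 3 * d (b % 2 ^ t) < 4 ^ t := three_d_lt t _ (Nat.mod_lt _ (by positivity))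
    have h4 : co (!c) * d (b % 2 ^ t) < 4 ^ t := by
      cases c <;> simp <;> omega
    rw [← Nat.lt_succ_iff, Nat.div_lt_iff_lt_mul (by positivity)]
    simp only [Nat.succ_eq_add_one]
    omega
  have h3 := div_split c t x y
  rw [← h, h1] at h3
  have h4 := carry_one c h2 h3
  have h5 : x < 2 ^ t * (x / 2 ^ t + 1) := by
    have := Nat.lt_mul_div_succ x (show 0 < 2 ^ t by positivity)
    exact this
  calc x < 2 ^ t * (x / 2 ^ t + 1) := h5
    _ ≤ 2 ^ t * 2 := Nat.mul_le_mul_left _ (by omega)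
    _ = 2 ^ (t + 1) := by rw [pow_succ]

variable {π : Par} (S : Sys π)

theorem X_eq (i : ℕ) : π.X i = 4 ^ π.m i * 4 ^ π.l i := by
  unfold Par.X
  rw [pow_add]

theorem X_succ_eq (i : ℕ) : π.X (i + 1) = 4 ^ π.m i * 4 ^ (π.s i + π.l (i + 1)) := by
  unfold Par.X
  rw [π.m_succ, add_assoc, pow_add]

theorem M_succ_eq (i : ℕ) : 4 ^ π.m (i + 1) = 4 ^ π.m i * 4 ^ π.s i := by
  rw [π.m_succ, pow_add]

/-- elements of level `i` -/
theorem mem_A0 {c : Bool} {i p u : ℕ} (hp : p ∈ S.P c i) (hu : 2 ^ π.l i ≤ u)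
    (h : p + 4 ^ π.m i * (co c * d u) < π.X (i + 1)) :
    p + 4 ^ π.m i * (co c * d u) ∈ S.A0 c := by
  refine ⟨i, ?_, h, p, hp, u, rfl⟩
  rw [X_eq]
  have h1 := pow_le_d hu
  have h2 := co_pos c
  calc 4 ^ π.m i * 4 ^ π.l i ≤ 4 ^ π.m i * (co c * d u) := by
        apply Nat.mul_le_mul_left
        calc 4 ^ π.l i ≤ 1 * d u := by omega
          _ ≤ co c * d u := Nat.mul_le_mul_right _ h2
    _ ≤ _ := Nat.le_add_left _ _

/-- elements of level `i + 1` -/
theorem mem_A0_succ {c : Bool} {i p u : ℕ} (hp : p ∈ S.P c i)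
    (hu : 2 ^ (π.s i + π.l (i + 1)) ≤ u)
    (h : p + 4 ^ π.m i * (co c * d u + co (!c) * d (S.v c i p)) < π.X (i + 2)) :
    p + 4 ^ π.m i * (co c * d u + co (!c) * d (S.v c i p)) ∈ S.A0 c := by
  have hp' : p + 4 ^ π.m i * (co c * d (u % 2 ^ π.s i) + co (!c) * d (S.v c i p)) ∈ S.P c (i + 1) :=
    S.mem_P_succ.2 ⟨p, hp, u % 2 ^ π.s i, Nat.mod_lt _ (by positivity), rfl⟩
  have e : p + 4 ^ π.m i * (co c * d u + co (!c) * d (S.v c i p)) =
      (p + 4 ^ π.m i * (co c * d (u % 2 ^ π.s i) + co (!c) * d (S.v c i p))) +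
        4 ^ π.m (i + 1) * (co c * d (u / 2 ^ π.s i)) := by
    rw [M_succ_eq]
    conv_lhs => rw [d_split (π.s i) u]
    ring
  rw [e]
  apply mem_A0 S hp'
  · rw [Nat.le_div_iff_mul_le (by positivity), ← pow_add, add_comm]
    exact hu
  · rw [← e]
    exact h

end Pool.Agent.V5helper43.NC
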