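import Pool.Agent.V5helper43.NC.Base

/-!
# Project NC: statements of the jobs (complete proofs in the comments)

Notation: `M_i = 4 ^ m i`, `X_i = X i = 4 ^ (m i + l i)`, `m (i+1) = m i + s i`, `s i = 2 l i`, `l` is monotone and
`≥ 5`. `d u` is the number whose base 4 digits are the binary digits of `u`. Useful facts of the starting library
(`Pool.Agent.Y940.HB`, file `Digits`): `d_add s t u (ht : t < 2^s) : d (t + 2^s*u) = d t + 4^s * d u`,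
`three_d_lt s x (hx : x < 2^s) : 3 * d x < 4^s`, `lt_of_d_lt k x (h : d x < 4^k) : x < 2^k`,
`exists_split R : ∃ x y, d x + 2 * d y = R`, `split_unique`, `co_split_unique`, `co_lt`, `T`, `card_T`, `mem_T`
(sums `d u + d w < 4^k` lie in a set of at most `3^k` numbers), `le_d`, `d_inj`; file `Hash`: `mem_ext`, `hash`.
In `Base`: `Par`, `Sys`, `P_lt`, `P_card`, `mem_P_succ`, `decode_unique`, `decode_exists`, `P_mod`, the sets `U`, `A0`,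
`B`, `A`, `V`, `W`, and `rep`, `rep2`, `cnt`.
-/

set_option autoImplicit false

open Finset

namespace Pool.Agent.V5helper43.NC

open Pool.Agent.Y940.HB (d co)

/-- (SYS) The data exist. This is `Pool.Agent.Y940.HB.Tower` and the beginning of `sys_exists` in
`Pool.Agent.Y940.HB.Sys` with `el` replaced by `π.l`, `s` by `π.s`, `m` by `π.m` (only the monotonicity of `s` was
used there): `lam i = 1 / (4 * 2 ^ s i * (i + 1))`, `Good i P`, `good_succ` (from `hash`), `good_bound`. No thresholds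
`th` here. -/
def S_SYS : Prop := ∀ π : Par, Nonempty (Sys π)

/-- (INJ) The main digits determine an element. First for `p ∈ P c i`, by induction on `i`:
`p = co c * d x + co (!c) * d y` with `x < 2 ^ m i`, and `p, p' ∈ P c i` with the same `x` are equal
(`p = p₀ + M_i (co c d t + co (!c) d (v p₀))`, so `x = x₀ + 2 ^ m i * t` and `y = y₀ + 2 ^ m i * v p₀` by `d_add`, `x₀` and
`t` are remainder and quotient of `x`; uniqueness of `x, y` by `co_split_unique`). Now let `a ∈ A0 c` be of level `i`: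
`a = p + M_i co c d u`. `X_i ≤ a` gives `4 ^ l i ≤ co c * d u` (as `p < M_i`), so `2 ^ l i ≤ u` by
`three_d_lt`; `a < X_{i+1}` gives `d u < 4 ^ (s i + l (i+1))`, `u < 2 ^ (s i + l (i+1))` by `lt_of_d_lt`. So
`X = x_p + 2 ^ m i * u` lies in `[2 ^ (m i + l i), 2 ^ (m (i+1) + l (i+1)))`; these intervals are disjoint for different `i`,
so `a, a'` have the same level, the same `u` and the same `x_p`. -/
def S_INJ : Prop := ∀ (π : Par) (S : Sys π) (c : Bool) (a a' x y y' : ℕ), a ∈ S.A0 c → a' ∈ S.A0 c →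
  a = co c * d x + co (!c) * d y → a' = co c * d x + co (!c) * d y' → a = a'

/-- (CNT0) `a < 4 ^ k` has main digits `x < 2 ^ k` (`d x ≤ a`, `lt_of_d_lt`; existence of `x, y` by `exists_split`), and
`a ↦ x` is injective on `A0 c` by INJ. -/
def S_CNT0 : Prop := ∀ (π : Par) (S : Sys π) (c : Bool) (k : ℕ), cnt (S.A0 c) (4 ^ k) ≤ 2 ^ k

/-- (PAIRS) The map `(a, b) ↦ d x + 2 d y`, `x` the main digits of `a` (`a = d x + 2 d y₀`), `y` those of `b`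
(`b = 2 d y + d x₀`), is injective (INJ and `split_unique`) and `d x + 2 d y ≤ a + b < N`. -/
def S_PAIRS : Prop := ∀ (π : Par) (S : Sys π) (N : ℕ),
  {p : ℕ × ℕ | p.1 ∈ S.A0 true ∧ p.2 ∈ S.A0 false ∧ p.1 + p.2 < N}.ncard ≤ N

/-- (GEN) Generic `n` are sums of two main elements of different types. Suppose `X_{i+1} ≤ n < X_{i+2}` and
`4 M_{i+1} ≤ n % X_{i+1}`. Let `p, q` be as in `decode_exists i n`, `M = M_i`, `R = (n - p - q) / M`, `τ = s i + l (i+1)` (so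
`X_{i+1} = M 4 ^ τ`). As `p + q < 2 M`, `R / 4 ^ τ = n / X_{i+1} = R₁ ≥ 1` and `R₀ = R % 4 ^ τ ≥ 2 * 4 ^ s i`. Write
`R₁ = d x₁ + 2 d y₁`; let `h = 2 d (v true i p)` if `x₁ ≠ 0` and `h = 0` otherwise, `g = d (v false i q)` if `y₁ ≠ 0` and
`g = 0` otherwise; `h, g < 4 ^ s i`. Write `R₀ - h - g = d x₀ + 2 d y₀`, `x₀, y₀ < 2 ^ τ`, and
`a = p + M (h + d x₀ + 4 ^ τ d x₁)`, `b = q + M (g + 2 d y₀ + 4 ^ τ 2 d y₁)`; `a + b = n`. If `x₁ ≠ 0`, then `a` is of level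
`i + 1` (`x = x₀ + 2 ^ τ x₁ = t + 2 ^ s i w`, `p' = p + M (d t + 2 d (v p)) ∈ P true (i+1)`, `a = p' + M_{i+1} d w`,
`w ≥ 2 ^ l (i+1)`, so `a ≥ X_{i+1}`; `a ≤ n < X_{i+2}`). If `x₁ = 0` and `2 ^ l i ≤ x₀` then `a` is of level `i`. If
`x₁ = 0` and `x₀ < 2 ^ l i`, then `a ∈ V true i` and `b ∈ W false i`. The same for `b`. -/
def S_GEN : Prop := ∀ (π : Par) (S : Sys π) (i n : ℕ), π.X (i + 1) ≤ n → n < π.X (i + 2) →
  (∃ a ∈ S.A0 true, ∃ b ∈ S.A0 false, a + b = n) ∨ n % π.X (i + 1) < 4 * 4 ^ π.m (i + 1) ∨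
    ∃ c, ∃ a ∈ S.V c i, ∃ b ∈ S.W (!c) i, a + b = n

/-- (COV) Every `n ≥ X_1` is a sum of two elements of `A`. Let `X_{i+1} ≤ n < X_{i+2}`, `J = i + 1`, `M = M_i`,
`K = 193 M_J`, `n₀ = n % X_J`, `n / X_J = d x₁ + 2 d y₁` (not both zero; `x₁, y₁ < 2 ^ (s J + l (J+1) - l J)` by
`lt_of_d_lt` since `n / X_J < X_{J+1} / X_J`).
(A) `n₀ < 62 M_J`. Put `n' = n₀ + K`, take `p, q` from `decode_exists i n'`, `R' = (n' - p - q) / M = d x + 2 d y`,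
`a = p + M d x`, `b = q + M 2 d y`, `a + b = n' < 255 M_J`. As `192 * 4 ^ s i ≤ R' < 256 * 4 ^ s i`, `R' / 4 ^ (s i + 3) = 3`, so
`x, y ≥ 2 ^ (s i + 3) ≥ 2 ^ l i` (by uniqueness of the split: `3 = d 1 + 2 d 1`), so `a` and `b` are elements of `A0` of level `i`
(`X_i ≤ a < 256 M_J ≤ X_J`). If `x₁ ≠ 0`: `n = e + f` with `e + K = X_J d x₁ + a` (`e ∈ B i`: `c = true`, `ε = 1`) and
`f = 2 X_J d y₁ + b` (`∈ B i` with `c = false`, `ε = 0` if `y₁ ≠ 0`, and `= b ∈ A0 false` otherwise). If `x₁ = 0`: `y₁ ≠ 0`,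
`e = a`, `f + K = 2 X_J d y₁ + b`.
(B) `n₀ ≥ 62 M_J`: as in GEN with `p, q, R, R₀ ≥ 60 * 4 ^ s i, R₁ = n / X_J, h, g, x₀, y₀, a, b`. If `a ∈ A0 true` and `b ∈ A0 false`
we are done. Let `x₁ = 0`, `x₀ < 2 ^ l i`; then `h = 0`, `y₁ ≠ 0`. Write `R₀ = d x + 2 d y`. Then
`n = (p + M d x + 2 X_J d y₁) + (q + M 2 d y)`. Here `R₀ = (d x₀ + g) + 2 d y₀`, `d x₀ + g < 2 * 4 ^ s i`, and with
`y₀ = y' + 2 ^ (s i + 1) y''`: `d x₀ + g + 2 d y' = r + 4 ^ (s i + 1) δ`, `δ ≤ 1`, `r < 4 ^ (s i + 1)`,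
`R₀ = r + 4 ^ (s i + 1) (δ + 2 d y'')`, so `x = x_r + 2 ^ (s i + 1) δ < 2 ^ (s i + 2)`: `p + M d x < 256 M_J`, and the first summand is in
`B i` (`c = false`, `c' = true`, `ε = 0`). `2 d y = R₀ - d x ≥ 54 * 4 ^ s i`, so `y ≥ 2 ^ (s i + 1) ≥ 2 ^ l i`, and `y < 2 ^ τ` as
`R₀ < 4 ^ τ`, so the second summand is in `A0 false` (level `i`). Let `y₁ = 0`, `y₀ < 2 ^ l i`; then `g = 0`, `x₁ ≠ 0`,
`R₀ = (2 d y₀ + h) + d x₀`, `2 d y₀ + h < 2 * 4 ^ s i`, `x₀ = x' + 2 ^ (s i + 1) x''`,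
`2 d y₀ + h + d x' < 4 ^ (s i + 1)`, so `R₀ = d x + 2 d y` with `y < 2 ^ (s i + 1)`, `x ≥ 2 ^ (s i + 1)`, and
`n = (p + M d x) + (q + M 2 d y + X_J d x₁)`, the second summand in `B i` (`c = true`, `c' = false`, `ε = 0`). -/
def S_COV : Prop := ∀ (π : Par) (S : Sys π) (n : ℕ), π.X 1 ≤ n → ∃ e ∈ S.A, ∃ f ∈ S.A, e + f = n

/-- (UNC) From GEN. For `X_{i+1} ≤ n < min (X_{i+2}, 4 ^ k)`, `k ≥ m (i+1) + l (i+1)`, without mixed representation: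
either `n % X_{i+1} < 4 M_{i+1}`: at most `4 * 4 ^ (k - l (i+1))` numbers `n < 4 ^ k` (`X_{i+1}` divides `4 ^ k`); or
`n = a + b`, `a ∈ V c i` (at most `2 ^ (m i + l i)` elements), `b ∈ W (!c) i`, `b < 4 ^ k` (at most `2 * 2 ^ m i * 2 ^ (k - m i)`, as
`d u < 4 ^ (k - m i)`): at most `4 * 2 ^ (k + m i + l i) ≤ 4 * 4 ^ (k - l i)` numbers, since
`k ≥ m i + 2 l i + l (i+1) ≥ m i + 3 l i`. Together `≤ 8 * 4 ^ (k - l i)`. Use this for `i = j + 1` and `k`, for `i = j` and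
`k' = m (j+2) + l (j+2) ≤ k`; and there are `X_{j+1} = 4 ^ (m (j+1) + l (j+1)) ≤ 4 ^ (k - l j)` numbers `n < X_{j+1}`. -/
def S_UNC : Prop := ∀ (π : Par) (S : Sys π) (j k : ℕ), π.m (j + 2) + π.l (j + 2) ≤ k →
  k ≤ π.m (j + 3) + π.l (j + 3) →
  {n | n < 4 ^ k ∧ ¬ ∃ a ∈ S.A0 true, ∃ b ∈ S.A0 false, a + b = n}.ncard * 4 ^ π.l j ≤ 20 * 4 ^ k

/-- (MIX) From PAIRS and UNC: with `u` the number in UNC, `∑_{n < 4 ^ k} rep2 n ≤ 4 ^ k` (PAIRS), so the number of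
`n < 4 ^ k` with `rep2 n ≥ 2` is at most `∑ rep2 n - #{n : rep2 n ≥ 1} ≤ u`. -/
def S_MIX : Prop := ∀ (π : Par) (S : Sys π) (j k : ℕ), π.m (j + 2) + π.l (j + 2) ≤ k →
  k ≤ π.m (j + 3) + π.l (j + 3) →
  {n | n < 4 ^ k ∧ rep2 (S.A0 true) (S.A0 false) n ≠ 1}.ncard * 4 ^ π.l j ≤ 40 * 4 ^ k

/-- (SAME) Let `J = j + 2`. For `a ∈ A0 c`, `a < 4 ^ k ≤ X_{J+1}` there is `u` with `a / M_J = co c * d u` (`a` has a level
`i ≤ J`, `a = p + M_i co c d w`, `u = w / 2 ^ (m J - m i)`, use `d_add`). So for `n = a + b`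
the quotient `n / M_J` is `co c (d u + d u') + δ`, `δ ≤ 1`, with `d u + d u' < 4 ^ (k - m J)` in a set of at most
`3 ^ (k - m J)` numbers (`mem_T`, `card_T`); at most `4 * M_J * 3 ^ (k - m J)` numbers `n` (two types, two `δ`). Finally
`4 ^ m J * 3 ^ (k - m J) * 4 ^ l J ≤ 4 ^ k * 3 ^ l J`, as `k ≥ m J + l J`. -/
def S_SAME : Prop := ∀ (π : Par) (S : Sys π) (j k : ℕ), π.m (j + 2) + π.l (j + 2) ≤ k →
  k ≤ π.m (j + 3) + π.l (j + 3) →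
  {n | n < 4 ^ k ∧ ∃ c, ∃ a ∈ S.A0 c, ∃ b ∈ S.A0 c, a + b = n}.ncard * 4 ^ π.l (j + 2) ≤
    4 * 4 ^ k * 3 ^ π.l (j + 2)

/-- (CNTB) Supplementary elements below `4 ^ k`. (1) `a ∈ U c' i`, `a < 256 M_{i+1} = 4 ^ (4 + m i + s i)`: at most
`2 ^ m i * 2 ^ (s i + 4)` elements. (2) `e ∈ B i`, `e < 4 ^ k`: `X_{i+1} d z ≤ e + 193 M_{i+1} < 4 ^ (k+1)`
(as `z ≥ 1`, `1024 M_{i+1} ≤ X_{i+1} ≤ 4 ^ k + 193 M_{i+1}`), so `m (i+1) + l (i+1) ≤ k + 1` and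
`z < 2 ^ (k + 1 - m (i+1) - l (i+1))`; so `B i` has at most `8 * 2 ^ (m (i+1) + 4) * 2 ^ (k + 1 - m (i+1) - l (i+1)) = 256 * 2 ^ (k - l (i+1))`
elements below `4 ^ k` (in the form `cnt * 2 ^ l (i+1) ≤ 256 * 2 ^ k`). (3) by the bound on `z` in the definition `B i` has
altogether at most `8 * 2 ^ (m (i+1) + 4) * 2 ^ (s (i+1) + l (i+2) - l (i+1)) ≤ 128 * 2 ^ (m (i+2) + l (i+2))` elements. By (2) only `i ≤ j + 2`
matter. Use (2) for `i = j, j+1, j+2` and (3) for `i < j`: `∑_{i<j} 2 ^ (m (i+2) + l (i+2)) ≤ 2 * 2 ^ (m (j+1) + l (j+1))` and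
`m (j+1) + l (j+1) ≤ k - l (j+1)`. Sum `≤ (768 + 256) * 2 ^ (k - l (j+1))`. -/
def S_CNTB : Prop := ∀ (π : Par) (S : Sys π) (j k : ℕ), π.m (j + 2) + π.l (j + 2) ≤ k →
  k ≤ π.m (j + 3) + π.l (j + 3) → cnt {e | ∃ i, e ∈ S.B i} (4 ^ k) * 2 ^ π.l (j + 1) ≤ 1024 * 2 ^ k

/-- (CNTA) From CNT0 and CNTB: `A` has at most `(2 + 1024 / 32) 2 ^ k` elements below `4 ^ k` (there is `j` with
`m (j+2) + l (j+2) ≤ k ≤ m (j+3) + l (j+3)`). -/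
def S_CNTA : Prop := ∀ (π : Par) (S : Sys π) (k : ℕ), π.m 2 + π.l 2 ≤ k → cnt S.A (4 ^ k) ≤ 34 * 2 ^ k

/-- (EXC) The exceptions. From MIX, SAME, CNTB, CNTA. If `n` is not a sum `e + f` with `e ∈ ⋃ B i`, `f ∈ A`, nor a sum of two
elements of the same `A0 c`, then `rep A n = 2 * rep2 (A0 true) (A0 false) n` (the pairs with sum `n` are the pairs of
`A0 true × A0 false` and their reversals, which are different). So the exceptions are among three sets with at most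
`40 * 4 ^ (k - l j)`, `4 * 4 ^ k (3/4) ^ l (j+2)`, `34 * 2 ^ k * 1024 * 2 ^ (k - l (j+1))` elements, and
`2 ^ (-l) ≤ (3/4) ^ l`, `l` monotone. -/
def S_EXC : Prop := ∀ (π : Par) (S : Sys π) (j k : ℕ), π.m (j + 2) + π.l (j + 2) ≤ k →
  k ≤ π.m (j + 3) + π.l (j + 3) →
  {n | n < 4 ^ k ∧ rep S.A n ≠ 2}.ncard * 4 ^ π.l j ≤ 40000 * 4 ^ k * 3 ^ π.l j

/-- (REP) Upper bound. Every `e ∈ A`, `e < X_{J+1}`, has an index `k ≤ J` and a type `c` with `e % M_k ∈ P c k`: `k` the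
level if `e ∈ A0 c`; `k = i`, `c = c'` if `e ∈ B i` (`M_i` divides `X_{i+1}` and `193 M_{i+1}`;
`e ≥ X_{i+1} - 193 M_{i+1} ≥ X_{i+1} / 4 `, so `i ≤ J`). For given `(k, c)` and `p ∈ P c k` there are at most
`q_k = 2 ^ (s k + s (k+1) + l (k+2) + 7)` such `e` with `e % M_k = p` (`2 ^ (s k + l (k+1))` in `A0 c`, `4 * 2 ^ (s k + 4) * 2 ^ (s (k+1) + l (k+2))`
in `B k`). For a pair `(e, f)` with sum `n` and indices `k ≤ k'`, types `c, c'`, `f % M_k ∈ P c' k` (`P_mod`), so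
`(e % M_k, f % M_k)` is one of at most `zb k` pairs (`S.hZ` if `c = c'`, `decode_unique` if `c ≠ c'`), and then `e` is one of
`q_k` numbers, `f = n - e`. So `rep A n ≤ 2 ∑_{k ≤ J} 4 zb k q_k`; `zb` and `q` are nondecreasing. -/
def S_REP : Prop := ∀ (π : Par) (S : Sys π) (J n : ℕ), n < π.X (J + 1) →
  rep S.A n ≤ 8 * (J + 1) * π.zb J * 2 ^ (π.s J + π.s (J + 1) + π.l (J + 2) + 7)

/-- (OPT) Optimality, from the starting result `SingularSpectrum` (first part with `P = 2`, `κ = 1/2`). Suppose that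
`∑_{n<N} (rep A n - 2)² ≤ (1/2) ∑_{n<N} rep A n` for all large `N`. `A` is infinite, `a_n ≤ C n²` (a standard fact for bases of
order 2, see the starting files), the constant function `2` has singular spectrum (`4 δ_0`). So
`∑_{n<N} (rep A n)² > 100 N` for some large `N`. But `r² ≤ 2 (r - 2)² + 8` and `r ≤ (r² + 1) / 2` give
`∑ r² ≤ ∑ r + 8 N ≤ (1/2) ∑ r² + (1/2) N + 8 N`, a contradiction. So
`∑_{n<N} (rep A n - 2)² > (1/2) ∑_{n<N} rep A n ≥ (N - n₀) / 2` for arbitrarily large `N`; the left side is at most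
`F N ^ 2` times the number of exceptions. -/
def S_OPT : Prop := ∀ (A : Set ℕ) (n₀ : ℕ) (F : ℕ → ℝ), (∀ n, n₀ ≤ n → 1 ≤ rep A n) → Monotone F →
  (∀ n, 2 ≤ F n) → (∀ n, (rep A n : ℝ) ≤ F n) →
  ∃ᶠ x : ℕ in Filter.atTop, (x : ℝ) / (4 * F x ^ 2) ≤ {n | n < x ∧ rep A n ≠ 2}.ncard

/-- (FIN1) The final statement with powers of the logarithm, from SYS, COV, CNTA, EXC, REP, for
`l i = 5 κ (Nat.log 2 (i + 1) + 1) + 5`. (a) `n₀ = X_1`. (b) `4 ^ (k-1) ≤ x + 1 ≤ 4 ^ k`, small `x` by a large `C`.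
(c) `n < X_{J+1}`, `X_J ≤ n`, `J ≥ 1` (small `n` by a large `C`): `J ≤ m J ≤ log n`;
`2 ^ l i ≤ 32 (2 (i+1)) ^ (5 κ)`, `m J ≤ 2 J l J ≤ C J²`, so REP gives `rep ≤ C J ^ (35 κ + 4)`.
(d) `4 ^ (k-1) ≤ x < 4 ^ k`, `m (j+2) + l (j+2) ≤ k ≤ m (j+3) + l (j+3)`: `(3/4) ^ 5 < 1/4`, so `(3/4) ^ l j ≤ 4 ^ (-κ (Nat.log 2 (j+1) + 1)) ≤ (j+1) ^ (-2κ)`,
and `k ≤ 2 (j+3) l (j+3) + l (j+3) ≤ C (j+1)²`, so EXC gives `≤ C 4 ^ k k ^ (-κ)`. -/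
def S_FIN1 : Prop := ∀ κ : ℕ, ∃ A : Set ℕ, (∃ n₀ : ℕ, ∀ n, n₀ ≤ n → 1 ≤ rep A n) ∧
  (∃ C : ℝ, ∀ x : ℕ, 1 ≤ x → ({a | a ∈ A ∧ a ≤ x}.ncard : ℝ) ≤ C * Real.sqrt x) ∧
  (∃ C : ℝ, ∀ n : ℕ, 2 ≤ n → (rep A n : ℝ) ≤ C * Real.log n ^ (35 * κ + 4)) ∧
  (∃ C : ℝ, ∀ x : ℕ, 2 ≤ x → ({n | n ≤ x ∧ rep A n ≠ 2}.ncard : ℝ) ≤ C * (x / Real.log x ^ κ))

/-- (FIN2) The final statement with `exp (√log)`, from SYS, COV, CNTA, EXC, REP, for `l i = i + 5` (or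
`l i = i + 5` scaled): `m i = i² + 9 i`, so `n < X_{J+1}`, `X_J ≤ n` give `J ≤ √(log n)`, and `x < 4 ^ k`, `4 ^ (k-1) ≤ x` give
`k ≤ C (j+1)²`, `j + 1 ≥ c √(log x)`. -/
def S_FIN2 : Prop := ∃ A : Set ℕ, (∃ n₀ : ℕ, ∀ n, n₀ ≤ n → 1 ≤ rep A n) ∧
  (∃ C : ℝ, ∀ x : ℕ, 1 ≤ x → ({a | a ∈ A ∧ a ≤ x}.ncard : ℝ) ≤ C * Real.sqrt x) ∧
  (∃ C : ℝ, ∀ n : ℕ, 2 ≤ n → (rep A n : ℝ) ≤ C * Real.exp (C * Real.sqrt (Real.log n))) ∧
  (∃ C c : ℝ, 0 < c ∧ ∀ x : ℕ, 2 ≤ x →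
    ({n | n ≤ x ∧ rep A n ≠ 2}.ncard : ℝ) ≤ C * (x * Real.exp (-(c * Real.sqrt (Real.log x)))))

end Pool.Agent.V5helper43.NC
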