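import Pool.Agent.V5helper43.NC.Gen
import Pool.Agent.V5helper43.ET.TwoReps

/-!
# Project NC: the trade-off between the size of `r_A` and the number of exceptions
-/

set_option autoImplicit false

open Filter

namespace Pool.Agent.V5helper43.NC

/-- a basis of order 2 is infinite -/
lemma basis_infinite {A : Set ℕ} {n₀ : ℕ} (h : ∀ n, n₀ ≤ n → 1 ≤ rep A n) : A.Infinite := by
  by_contra hcon
  rw [Set.not_infinite] at hcon
  obtain ⟨M, hM⟩ := hcon.bddAbove
  have h1 := h (n₀ + 2 * M + 1) (by omega)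
  have h2 : ∃ a ∈ A, ∃ b ∈ A, a + b = n₀ + 2 * M + 1 := by
    by_contra hc
    rw [← Pool.Agent.V5helper55.NC.rep2_pos] at hc
    have h3 : rep A (n₀ + 2 * M + 1) = rep2 A A (n₀ + 2 * M + 1) := rfl
    omega
  obtain ⟨a, ha, b, hb, hab⟩ := h2
  have h3 := hM ha
  have h4 := hM hb
  omega

open Finset in
/-- a basis of order 2 has `a_n ≤ n² + n₀` -/
lemma basis_nth {A : Set ℕ} {n₀ : ℕ} (h : ∀ n, n₀ ≤ n → 1 ≤ rep A n) (k : ℕ) :
    Nat.nth (· ∈ A) k ≤ k ^ 2 + n₀ := by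
  classical
  have hinf : (Set.ofPred (· ∈ A)).Infinite := basis_infinite h
  obtain ⟨x, hx⟩ : ∃ x, x = Nat.nth (· ∈ A) k := ⟨_, rfl⟩
  rw [← hx]
  have hc : ((range x).filter (· ∈ A)).card = k := by
    have h1 := Nat.count_nth_of_infinite hinf k
    rw [Nat.count_eq_card_filter_range, ← hx] at h1
    exact h1
  obtain ⟨T, hT⟩ : ∃ T, T = (range x).filter (· ∈ A) := ⟨_, rfl⟩
  rw [← hT] at hc
  have hsub : Ico n₀ x ⊆ (T ×ˢ T).image (fun p : ℕ × ℕ => p.1 + p.2) := by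
    intro n hn
    rw [mem_Ico] at hn
    have h1 := h n hn.1
    have h2 : ∃ a ∈ A, ∃ b ∈ A, a + b = n := by
      by_contra hc
      rw [← Pool.Agent.V5helper55.NC.rep2_pos] at hc
      have h3 : rep A n = rep2 A A n := rfl
      omega
    obtain ⟨a, ha, b, hb, hab⟩ := h2
    rw [mem_image]
    refine ⟨(a, b), ?_, hab⟩
    rw [mem_product, hT, mem_filter, mem_filter, mem_range, mem_range]
    exact ⟨⟨by omega, ha⟩, ⟨by omega, hb⟩⟩
  have h2 := (card_le_card hsub).trans card_image_le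
  rw [Nat.card_Ico, card_product, hc] at h2
  rw [pow_two]
  omega

open Finset in
/-- the lower bound for the number of exceptions -/
theorem lower (F : ℕ → ℝ) (hF : Monotone F) (A : Set ℕ) (hA : ∀ᶠ n in atTop, 1 ≤ rep A n)
    (hr : ∀ᶠ n in atTop, (rep A n : ℝ) ≤ F n) :
    ∃ δ : ℝ, 0 < δ ∧ ∀ᶠ x : ℕ in atTop,
      δ * x / F x ^ 2 ≤ ({n | n ≤ x ∧ 4 ≤ rep A n}.ncard : ℝ) := by
  classical
  obtain ⟨n₀, hA⟩ := eventually_atTop.1 hA
  obtain ⟨n₁, hr⟩ := eventually_atTop.1 hr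
  have hinf := basis_infinite hA
  obtain ⟨δ, hδ, N₀, hN⟩ := Pool.Agent.V5helper43.ET.two_reps ((n₀ : ℝ) + 1) (by positivity)
  have hnth : ∀ n : ℕ, (Nat.nth (fun a => a ∈ A) n : ℝ) ≤ ((n₀ : ℝ) + 1) * ((n : ℝ) + 1) ^ 2 := by
    intro n
    have h1 : ((Nat.nth (· ∈ A) n : ℕ) : ℝ) ≤ (n : ℝ) ^ 2 + n₀ := by exact_mod_cast basis_nth hA n
    have h2 : (0 : ℝ) ≤ n := Nat.cast_nonneg n
    have h3 : (0 : ℝ) ≤ n₀ := Nat.cast_nonneg n₀
    have h4 : (1 : ℝ) ≤ ((n : ℝ) + 1) ^ 2 := one_le_pow₀ (by linarith)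
    nlinarith
  have hN' := hN A hinf hnth
  set S₁ : ℝ := ∑ n ∈ range n₁, (rep A n : ℝ) ^ 2 with hS₁
  refine ⟨δ / 2, by positivity, ?_⟩
  obtain ⟨n₂, hn₂⟩ := exists_nat_ge (2 * S₁ / δ)
  filter_upwards [eventually_ge_atTop N₀, eventually_ge_atTop n₁, eventually_ge_atTop n₀,
    eventually_ge_atTop n₂] with N h0 h1 h2 h3
  have hFN : 0 < F N := by
    have h4 := hr N h1
    have h5 : (1 : ℝ) ≤ rep A N := by exact_mod_cast hA N h2
    linarith
  have key := hN' N h0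
  have key2 : ∑ n ∈ (range (N + 1)).filter (fun n => 4 ≤ Pool.Agent.V5helper43.ET.rep A n),
      (Pool.Agent.V5helper43.ET.rep A n : ℝ) ^ 2 ≤
      S₁ + ({n | n ≤ N ∧ 4 ≤ rep A n}.ncard : ℝ) * F N ^ 2 := by
    have e : ({n | n ≤ N ∧ 4 ≤ rep A n} : Set ℕ) =
        (((range (N + 1)).filter (fun n => 4 ≤ rep A n) : Finset ℕ) : Set ℕ) := by
      ext n
      rw [Finset.mem_coe, mem_filter, mem_range, Set.mem_ofPred_eq, Nat.lt_succ_iff]
    rw [e, Set.ncard_coe_finset]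
    change ∑ n ∈ (range (N + 1)).filter (fun n => 4 ≤ rep A n), (rep A n : ℝ) ^ 2 ≤ _
    have h5 : ∀ n ∈ (range (N + 1)).filter (fun n => 4 ≤ rep A n), (rep A n : ℝ) ^ 2 ≤
        (if n < n₁ then (rep A n : ℝ) ^ 2 else 0) + F N ^ 2 := by
      intro n hn
      rw [mem_filter, mem_range] at hn
      split_ifs with h
      · linarith [sq_nonneg (F N)]
      · have h6 := hr n (not_lt.1 h)
        have h7 : F n ≤ F N := hF (by omega)
        have h8 : (0 : ℝ) ≤ rep A n := Nat.cast_nonneg _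
        rw [zero_add]
        exact pow_le_pow_left₀ h8 (h6.trans h7) 2
    refine (sum_le_sum h5).trans ?_
    rw [sum_add_distrib, sum_const, nsmul_eq_mul, ← sum_filter]
    have h6 : ∑ n ∈ ((range (N + 1)).filter (fun n => 4 ≤ rep A n)).filter (fun n => n < n₁),
        (rep A n : ℝ) ^ 2 ≤ S₁ := by
      rw [hS₁]
      apply sum_le_sum_of_subset_of_nonneg
      · intro n hn
        rw [mem_filter] at hn
        exact mem_range.2 hn.2
      · intro n _ _
        positivity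
    linarith
  rw [div_le_iff₀ (by positivity)]
  have h4 : (2 * S₁ / δ : ℝ) ≤ N := hn₂.trans (by exact_mod_cast h3)
  rw [div_le_iff₀ hδ] at h4
  have h5 := key.trans key2
  linarith

/-- the construction for a given bound `F` of the representation function -/
theorem upper (F : ℕ → ℝ) (hF : Monotone F)
    (hlo : ∀ᶠ n : ℕ in atTop, Real.log n ^ 4 ≤ F n) (hup : ∀ᶠ n : ℕ in atTop, F n ≤ n)
    (hreg : ∃ D : ℝ, ∀ᶠ n : ℕ in atTop, F (n ^ 2) ≤ D * F n ^ 2) :
    ∃ A : Set ℕ, (∀ᶠ n in atTop, 1 ≤ rep A n) ∧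
      (∃ C : ℝ, ∀ x : ℕ, 1 ≤ x → ({a | a ∈ A ∧ a ≤ x}.ncard : ℝ) ≤ C * Real.sqrt x) ∧
      (∀ᶠ n in atTop, (rep A n : ℝ) ≤ F n) ∧
      (∃ C : ℝ, ∀ᶠ x : ℕ in atTop, ({n | n ≤ x ∧ rep A n ≠ 2}.ncard : ℝ) ≤
        C * x / F x ^ (1 / 1000 : ℝ)) := by
  obtain ⟨D, hreg⟩ := hreg
  -- `F → ∞`
  have hlogt : Tendsto (fun n : ℕ => Real.log n ^ 4) atTop atTop :=
    (tendsto_pow_atTop (by norm_num)).comp (Real.tendsto_log_atTop.comp tendsto_natCast_atTop_atTop)
  have hFt : Tendsto F atTop atTop := tendsto_atTop_mono' _ hlo hlogt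
  obtain ⟨n₁, hn₁⟩ := eventually_atTop.1
    ((hlo.and hup).and (hreg.and (hFt.eventually_ge_atTop 1)))
  set t₀ := n₁ + 3 with ht₀
  have hpow : ∀ t, t₀ ≤ t → n₁ ≤ 2 ^ t := fun t ht => by
    have : t < 2 ^ t := Nat.lt_two_pow_self
    omega
  set D' : ℝ := max 1 D with hD'
  have hD1 : 1 ≤ D' := le_max_left _ _
  have hlD : 0 ≤ Real.log D' := Real.log_nonneg hD1
  set g : ℕ → ℝ := fun t => Real.log (max 1 (F (2 ^ t))) with hg
  have hmaxpos : ∀ t : ℕ, 0 < max 1 (F (2 ^ t)) := fun t => lt_max_of_lt_left one_pos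
  have hgm : Monotone g := by
    intro s t hst
    apply Real.log_le_log (hmaxpos s)
    exact max_le_max le_rfl (hF (Nat.pow_le_pow_right (by norm_num) hst))
  have hg0 : ∀ t, 0 ≤ g t := fun t => Real.log_nonneg (le_max_left _ _)
  have hglt : ∀ t, t₀ ≤ t → g t ≤ t := by
    intro t ht
    have h1 := (hn₁ _ (hpow t ht)).1.2
    have h2 : max 1 (F (2 ^ t)) ≤ (2 : ℝ) ^ t := by
      apply max_le (one_le_pow₀ (by norm_num))
      exact_mod_cast h1
    have h3 : g t ≤ Real.log ((2 : ℝ) ^ t) := Real.log_le_log (hmaxpos t) h2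
    rw [Real.log_pow] at h3
    have h4 : Real.log 2 < 1 := by
      have := Real.log_two_lt_d9
      linarith
    have h5 : (0 : ℝ) ≤ t := Nat.cast_nonneg t
    nlinarith
  have hregt : ∀ t, t₀ ≤ t → F ((2 ^ t) ^ 2) ≤ D' * (max 1 (F (2 ^ t))) ^ 2 := by
    intro t ht
    obtain ⟨⟨_, _⟩, h1, h2⟩ := hn₁ _ (hpow t ht)
    have h3 : D * F (2 ^ t) ^ 2 ≤ D' * F (2 ^ t) ^ 2 :=
      mul_le_mul_of_nonneg_right (le_max_right _ _) (sq_nonneg _)
    have h4 : F (2 ^ t) ^ 2 ≤ (max 1 (F (2 ^ t))) ^ 2 :=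
      pow_le_pow_left₀ (by linarith) (le_max_right _ _) 2
    calc F ((2 ^ t) ^ 2) ≤ D * F (2 ^ t) ^ 2 := h1
      _ ≤ D' * F (2 ^ t) ^ 2 := h3
      _ ≤ D' * (max 1 (F (2 ^ t))) ^ 2 := by gcongr
  have hlogreg : ∀ t, t₀ ≤ t → Real.log (D' * (max 1 (F (2 ^ t))) ^ 2) = Real.log D' + 2 * g t := by
    intro t ht
    rw [Real.log_mul (by positivity) (pow_ne_zero 2 (hmaxpos t).ne'), Real.log_pow]
    norm_num [hg]
  have hg2 : ∀ t, t₀ ≤ t → g (2 * t) ≤ 2 * g t + Real.log D' := by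
    intro t ht
    have h1 := hregt t ht
    have h2 : max 1 (F (2 ^ (2 * t))) ≤ D' * (max 1 (F (2 ^ t))) ^ 2 := by
      apply max_le
      · have h3 : (1 : ℝ) ≤ (max 1 (F (2 ^ t))) ^ 2 := one_le_pow₀ (le_max_left _ _)
        nlinarith
      · rw [show 2 * t = t * 2 by ring, pow_mul]
        exact h1
    have h3 : g (2 * t) ≤ Real.log (D' * (max 1 (F (2 ^ t))) ^ 2) :=
      Real.log_le_log (hmaxpos _) h2
    rw [hlogreg t ht] at h3
    linarith
  -- the rate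
  set ω : ℕ → ℕ := fun t => min (t / 16) ⌊g t / 30⌋₊ with hω
  have hm : Monotone ω := by
    intro s t hst
    apply min_le_min (Nat.div_le_div_right hst)
    apply Nat.floor_mono
    have := hgm hst
    linarith
  have h16 : ∀ t, 16 * ω t ≤ t := by
    intro t
    have h1 : ω t ≤ t / 16 := min_le_left _ _
    omega
  set E := t₀ + 3 + ⌈Real.log D' / 30⌉₊ with hE
  have h2 : ∀ t, ω (2 * t) ≤ 2 * ω t + E := by
    intro t
    rcases Nat.lt_or_ge t t₀ with ht | ht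
    · have h1 := h16 (2 * t)
      omega
    · rcases min_choice (t / 16) ⌊g t / 30⌋₊ with h | h
      · have h1 : ω t = t / 16 := h
        have h3 := h16 (2 * t)
        omega
      · have h1 : ω t = ⌊g t / 30⌋₊ := h
        have h3 : ω (2 * t) ≤ ⌊g (2 * t) / 30⌋₊ := min_le_right _ _
        have h4 : ⌊g (2 * t) / 30⌋₊ ≤ 2 * ⌊g t / 30⌋₊ + 2 + ⌈Real.log D' / 30⌉₊ := by
          apply Nat.floor_le_of_le
          push_cast
          have h5 := hg2 t ht
          have h6 := Nat.lt_floor_add_one (g t / 30)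
          have h7 := Nat.le_ceil (Real.log D' / 30)
          linarith
        omega
  have hωg : ∀ t, (ω t : ℝ) ≤ g t / 30 := by
    intro t
    have h1 : ω t ≤ ⌊g t / 30⌋₊ := min_le_right _ _
    have h3 : (ω t : ℝ) ≤ (⌊g t / 30⌋₊ : ℝ) := by exact_mod_cast h1
    exact h3.trans (Nat.floor_le (div_nonneg (hg0 t) (by norm_num)))
  have hωl : ∀ t, t₀ ≤ t → g t / 30 - 1 ≤ ω t := by
    intro t ht
    have h1 : ⌊g t / 30⌋₊ ≤ t / 16 := by
      rw [Nat.le_div_iff_mul_le (by norm_num)]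
      have h3 : ((⌊g t / 30⌋₊ * 16 : ℕ) : ℝ) ≤ t := by
        push_cast
        have h4 := Nat.floor_le (div_nonneg (hg0 t) (by norm_num : (0 : ℝ) ≤ 30))
        have h5 := hglt t ht
        have h6 := hg0 t
        linarith
      exact_mod_cast h3
    have h3 : ω t = ⌊g t / 30⌋₊ := min_eq_right h1
    rw [h3]
    have h6 := Nat.lt_floor_add_one (g t / 30)
    linarith
  obtain ⟨A, ⟨n₀, hA⟩, hthin, ⟨C₂, hC₂, hrep⟩, ⟨C₃, hC₃, hexc⟩⟩ := gen hm h16 h2
  refine ⟨A, eventually_atTop.2 ⟨n₀, hA⟩, hthin, ?_, ?_⟩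
  · -- the size of the representation function
    have hpt : Tendsto (fun n => F n ^ (1 / 20 : ℝ)) atTop atTop :=
      (tendsto_rpow_atTop (by norm_num)).comp hFt
    filter_upwards [hlo, hFt.eventually_ge_atTop 1, hpt.eventually_ge_atTop C₂,
      eventually_ge_atTop 2] with n h1 h3 h4 h5
    have hF0 : 0 < F n := by linarith
    have hlog0 : 0 ≤ Real.log n := Real.log_nonneg (by exact_mod_cast (by omega : 1 ≤ n))
    set T := Nat.log 2 n with hT
    have h6 : 2 ^ T ≤ n := Nat.pow_log_le_self 2 (by omega)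
    have h7 : g T ≤ Real.log (F n) := by
      apply Real.log_le_log (hmaxpos T)
      exact max_le h3 (hF h6)
    have h8 : (2 : ℝ) ^ (8 * ω T) ≤ F n ^ (1 / 5 : ℝ) := by
      have e1 : (2 : ℝ) ^ (8 * ω T) = Real.exp (((8 * ω T : ℕ) : ℝ) * Real.log 2) := by
        rw [Real.exp_nat_mul, Real.exp_log (by norm_num)]
      rw [e1, Real.rpow_def_of_pos hF0]
      apply Real.exp_le_exp.2
      have h9 := hωg T
      have h10 := Real.log_two_lt_d9
      have h11 : (0 : ℝ) ≤ ω T := Nat.cast_nonneg _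
      have h12 : (0 : ℝ) < Real.log 2 := Real.log_pos (by norm_num)
      push_cast
      have h13 : 8 * (ω T : ℝ) * Real.log 2 ≤ 8 * (ω T : ℝ) * 0.7 :=
        mul_le_mul_of_nonneg_left (by linarith) (by linarith)
      linarith
    have h9 : Real.log n ^ 3 ≤ F n ^ (3 / 4 : ℝ) := by
      have e1 : Real.log n ^ 3 = (Real.log n ^ 4) ^ (3 / 4 : ℝ) := by
        rw [← Real.rpow_natCast, ← Real.rpow_natCast, ← Real.rpow_mul hlog0]
        norm_num
      rw [e1]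
      exact Real.rpow_le_rpow (by positivity) h1 (by norm_num)
    have h10 : (0 : ℝ) < F n ^ (3 / 4 : ℝ) := Real.rpow_pos_of_pos hF0 _
    have h11 : (0 : ℝ) < F n ^ (1 / 5 : ℝ) := Real.rpow_pos_of_pos hF0 _
    calc (rep A n : ℝ) ≤ C₂ * (Real.log n ^ 3 * 2 ^ (8 * ω T)) := hrep n h5
      _ ≤ F n ^ (1 / 20 : ℝ) * (F n ^ (3 / 4 : ℝ) * F n ^ (1 / 5 : ℝ)) := by gcongr
      _ = F n := by
        rw [← Real.rpow_add hF0, ← Real.rpow_add hF0]
        norm_num
  · -- the number of exceptions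
    refine ⟨C₃ * Real.exp (1 / 16 + Real.log D' / 960), ?_⟩
    filter_upwards [hFt.eventually_ge_atTop 1, eventually_ge_atTop (2 ^ t₀)] with x h1 h3
    have hF0 : 0 < F x := by linarith
    have hx1 : 1 ≤ x := le_trans Nat.one_le_two_pow h3
    set T := Nat.log 2 x with hT
    have h4 : t₀ ≤ T := Nat.le_log_of_pow_le (by norm_num) h3
    have h5 : x < 2 ^ (T + 1) := Nat.lt_pow_succ_log_self (by norm_num) x
    have h6 : x ≤ (2 ^ T) ^ 2 := by
      rw [← pow_mul]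
      exact h5.le.trans (Nat.pow_le_pow_right (by norm_num) (by omega))
    have h7 : Real.log (F x) ≤ Real.log D' + 2 * g T := by
      rw [← hlogreg T h4]
      exact Real.log_le_log hF0 ((hF h6).trans (hregt T h4))
    have h8 := hωl T h4
    have h9 : 0 ≤ Real.log (F x) := Real.log_nonneg h1
    have h10 : Real.exp (-((ω T : ℝ) / 16)) ≤
        Real.exp (1 / 16 + Real.log D' / 960) * (F x ^ (1 / 1000 : ℝ))⁻¹ := by
      rw [Real.rpow_def_of_pos hF0, ← Real.exp_neg, ← Real.exp_add]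
      apply Real.exp_le_exp.2
      linarith
    calc ({n | n ≤ x ∧ rep A n ≠ 2}.ncard : ℝ)
        ≤ C₃ * (x * Real.exp (-((ω T : ℝ) / 16))) := hexc x hx1
      _ ≤ C₃ * (x * (Real.exp (1 / 16 + Real.log D' / 960) * (F x ^ (1 / 1000 : ℝ))⁻¹)) := by
          gcongr
      _ = C₃ * Real.exp (1 / 16 + Real.log D' / 960) * x / F x ^ (1 / 1000 : ℝ) := by
          rw [div_eq_mul_inv]
          ring

end Pool.Agent.V5helper43.NC
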